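import Pool.Agent.Work.MP_d76268_co.Stmts

/-!
# MP_d76268_co: Menger's theorem for finite digraphs (set version)

Induction on the number of arcs (Göring).
-/

namespace BiP4

namespace Menger

variable {W : Type}

/-- `l` is a walk from `a` to `b` -/
def Wk (E : W → W → Prop) (a b : W) (l : List W) : Prop :=
  l.IsChain E ∧ l.head? = some a ∧ l.getLast? = some b

lemma Wk.mono {E E' : W → W → Prop} (h : ∀ u v, E' u v → E u v) {a b : W} {l : List W}
    (hl : Wk E' a b l) : Wk E a b l :=
  ⟨hl.1.imp h, hl.2.1, hl.2.2⟩

lemma Wk.head_mem {E : W → W → Prop} {a b : W} {l : List W} (hl : Wk E a b l) : a ∈ l :=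
  List.mem_of_mem_head? hl.2.1

lemma Wk.last_mem {E : W → W → Prop} {a b : W} {l : List W} (hl : Wk E a b l) : b ∈ l :=
  List.mem_of_getLast? hl.2.2

lemma Wk.split {E : W → W → Prop} {a b c : W} {l1 l2 : List W} :
    Wk E a b (l1 ++ c :: l2) ↔ Wk E a c (l1 ++ [c]) ∧ Wk E c b (c :: l2) := by
  have h1 : (l1 ++ c :: l2).head? = (l1 ++ [c]).head? := by
    cases l1 <;> rfl
  have h2 : (l1 ++ c :: l2).getLast? = (c :: l2).getLast? := by
    rw [List.getLast?_append]
    cases h : (c :: l2).getLast? with
    | none => simp at h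
    | some d => rfl
  constructor
  · rintro ⟨h, h3, h4⟩
    rw [List.isChain_split] at h
    exact ⟨⟨h.1, by rw [← h1, h3], by simp⟩, ⟨h.2, rfl, by rw [← h2, h4]⟩⟩
  · rintro ⟨⟨h, h3, -⟩, ⟨h5, -, h6⟩⟩
    exact ⟨List.isChain_split.mpr ⟨h, h5⟩, by rw [h1, h3], by rw [h2, h6]⟩

lemma Wk.simple {E : W → W → Prop} : ∀ (l : List W) {a b : W}, Wk E a b l →
    ∃ l' : List W, l'.Nodup ∧ (∀ x ∈ l', x ∈ l) ∧ Wk E a b l' := by
  intro l
  induction l with
  | nil =>
    intro a b h
    exact absurd h.2.1 (by simp)
  | cons c t ih =>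
    intro a b h
    have hca : c = a := by
      have := h.2.1
      simpa using this
    subst hca
    rcases t with _ | ⟨d, t'⟩
    · exact ⟨[c], List.nodup_singleton c, fun x hx => hx, h⟩
    · have h1 : Wk E d b (d :: t') := by
        refine ⟨h.1.tail, rfl, ?_⟩
        have := h.2.2
        rwa [List.getLast?_cons_cons] at this
      have hcd : E c d := by
        have := h.1
        rw [List.isChain_cons_cons] at this
        exact this.1
      obtain ⟨s, hs1, hs2, hs3⟩ := ih h1
      by_cases hc : c ∈ s
      · obtain ⟨s1, s2, rfl⟩ := List.append_of_mem hc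
        refine ⟨c :: s2, hs1.sublist (List.sublist_append_right s1 (c :: s2)), ?_,
          (Wk.split.mp hs3).2⟩
        intro x hx
        exact List.mem_cons_of_mem c (hs2 x (List.mem_append_right s1 hx))
      · refine ⟨c :: s, List.nodup_cons.mpr ⟨hc, hs1⟩, ?_, ?_, rfl, ?_⟩
        · intro x hx
          rcases List.mem_cons.mp hx with rfl | hx
          · exact List.mem_cons_self
          · exact List.mem_cons_of_mem c (hs2 x hx)
        · apply hs3.1.cons
          intro y hy
          have h2 : s.head? = some d := hs3.2.1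
          rw [h2] at hy
          have h3 : d = y := by simpa using hy
          rw [← h3]
          exact hcd
        · have h2 : s.getLast? = some b := hs3.2.2
          rcases s with _ | ⟨e, s'⟩
          · simp at h2
          · rw [List.getLast?_cons_cons]
            exact h2

lemma isAB_iff {E : W → W → Prop} {A B : Set W} {l : List W} :
    IsAB E A B l ↔ ∃ a ∈ A, ∃ b ∈ B, Wk E a b l ∧ l.Nodup := by
  constructor
  · rintro ⟨h1, h2, h3, h4, h5⟩
    obtain ⟨a, ha⟩ : ∃ a, l.head? = some a := by
      cases l with
      | nil => exact absurd rfl h1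
      | cons c t => exact ⟨c, rfl⟩
    obtain ⟨b, hb⟩ : ∃ b, l.getLast? = some b := ⟨l.getLast h1, List.getLast?_eq_some_getLast h1⟩
    exact ⟨a, h4 a ha, b, h5 b hb, ⟨h3, ha, hb⟩, h2⟩
  · rintro ⟨a, ha, b, hb, hw, hn⟩
    refine ⟨?_, hn, hw.1, ?_, ?_⟩
    · rintro rfl
      exact absurd hw.2.1 (by simp)
    · intro c hc
      have h1 := hw.2.1
      rw [Option.mem_def, h1, Option.some_inj] at hc
      exact hc ▸ ha
    · intro c hc
      have h1 := hw.2.2
      rw [Option.mem_def, h1, Option.some_inj] at hc
      exact hc ▸ hb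

lemma first_mem (X : Set W) : ∀ l : List W, (∃ x ∈ l, x ∈ X) →
    ∃ l1 c l2, l = l1 ++ c :: l2 ∧ c ∈ X ∧ ∀ y ∈ l1, y ∉ X := by
  intro l
  induction l with
  | nil =>
    rintro ⟨x, hx, -⟩
    simp at hx
  | cons d t ih =>
    intro h
    by_cases hd : d ∈ X
    · exact ⟨[], d, t, rfl, hd, by simp⟩
    · obtain ⟨l1, c, l2, h1, h2, h3⟩ := ih (by
        obtain ⟨x, hx, hx'⟩ := h
        rcases List.mem_cons.mp hx with rfl | hx
        · exact absurd hx' hd
        · exact ⟨x, hx, hx'⟩)
      refine ⟨d :: l1, c, l2, by rw [h1]; rfl, h2, ?_⟩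
      intro y hy
      rcases List.mem_cons.mp hy with rfl | hy
      · exact hd
      · exact h3 y hy

lemma last_mem' (X : Set W) (l : List W) (h : ∃ x ∈ l, x ∈ X) :
    ∃ l1 c l2, l = l1 ++ c :: l2 ∧ c ∈ X ∧ ∀ y ∈ l2, y ∉ X := by
  obtain ⟨l1, c, l2, h1, h2, h3⟩ := first_mem X l.reverse (by
    obtain ⟨x, hx, hx'⟩ := h
    exact ⟨x, List.mem_reverse.mpr hx, hx'⟩)
  refine ⟨l2.reverse, c, l1.reverse, ?_, h2, ?_⟩
  · have h4 := congrArg List.reverse h1
    rw [List.reverse_reverse] at h4
    rw [h4]
    simp
  · intro y hy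
    exact h3 y (List.mem_reverse.mp hy)

/-- deletion of an arc -/
def del (E : W → W → Prop) (x y : W) : W → W → Prop := fun u v => E u v ∧ ¬ (u = x ∧ v = y)

lemma chain_del_prefix {E : W → W → Prop} {x y : W} : ∀ (l1 : List W) (c : W),
    (l1 ++ [c]).IsChain E → x ∉ l1 → (l1 ++ [c]).IsChain (del E x y) := by
  intro l1
  induction l1 with
  | nil =>
    intro c _ _
    exact List.isChain_singleton c
  | cons d t ih =>
    intro c h hx
    rw [List.cons_append, List.isChain_cons] at h ⊢
    refine ⟨?_, ih c h.2 fun hh => hx (List.mem_cons_of_mem d hh)⟩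
    intro z hz
    refine ⟨h.1 z hz, ?_⟩
    rintro ⟨h1, -⟩
    exact hx (by rw [h1]; exact List.mem_cons_self)

lemma chain_del_suffix {E : W → W → Prop} {x y c : W} {l2 : List W}
    (h : (c :: l2).IsChain E) (hy : y ∉ l2) : (c :: l2).IsChain (del E x y) := by
  refine List.IsChain.imp_of_mem_tail_imp ?_ h
  intro a b _ hb hab
  refine ⟨hab, ?_⟩
  rintro ⟨-, h1⟩
  rw [h1] at hb
  exact hy hb

lemma chain_del_left {E : W → W → Prop} {x y : W} {l : List W}
    (h : l.IsChain E) (hx : x ∉ l) : l.IsChain (del E x y) := by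
  refine List.IsChain.imp_of_mem_imp ?_ h
  intro a b ha _ hab
  refine ⟨hab, ?_⟩
  rintro ⟨h1, -⟩
  rw [h1] at ha
  exact hx ha

lemma chain_del_right {E : W → W → Prop} {x y : W} {l : List W}
    (h : l.IsChain E) (hy : y ∉ l) : l.IsChain (del E x y) := by
  refine List.IsChain.imp_of_mem_imp ?_ h
  intro a b _ hb hab
  refine ⟨hab, ?_⟩
  rintro ⟨-, h1⟩
  rw [h1] at hb
  exact hy hb

/-- an injective family of `k` elements in a finset with `k` elements is onto -/
lemma surj {k : ℕ} {X : Finset W} (hX : X.card = k) (f : Fin k → W)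
    (hf : Function.Injective f) (hm : ∀ i, f i ∈ X) : ∀ s ∈ X, ∃ i, f i = s := by
  classical
  intro s hs
  have h1 : Finset.univ.image f = X := by
    apply Finset.eq_of_subset_of_card_le
    · intro z hz
      obtain ⟨i, -, rfl⟩ := Finset.mem_image.mp hz
      exact hm i
    · rw [Finset.card_image_of_injective _ hf, Finset.card_univ, Fintype.card_fin, hX]
  rw [← h1] at hs
  obtain ⟨i, -, hi⟩ := Finset.mem_image.mp hs
  exact ⟨i, hi⟩

theorem aux [Fintype W] (n : ℕ) : ∀ (E : W → W → Prop) (A B : Set W) (k : ℕ),
    {p : W × W | E p.1 p.2}.ncard = n →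
    (∀ S : Finset W, (∀ l, IsAB E A B l → ∃ x ∈ l, x ∈ S) → k ≤ S.card) →
    ∃ P : Fin k → List W, (∀ i, IsAB E A B (P i)) ∧ ∀ i j, i ≠ j → List.Disjoint (P i) (P j) := by
  classical
  induction n using Nat.strong_induction_on with
  | _ n ih =>
  intro E A B k hn hk
  by_cases hE : ∃ x y, E x y
  · obtain ⟨x, y, hxy⟩ := hE
    have hlt : {p : W × W | del E x y p.1 p.2}.ncard < n := by
      rw [← hn]
      apply Set.ncard_lt_ncard _ (Set.toFinite _)
      refine ⟨fun p hp => hp.1, fun hsub => ?_⟩
      have h1 : (x, y) ∈ {p : W × W | del E x y p.1 p.2} := hsub (show E x y from hxy)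
      exact h1.2 ⟨rfl, rfl⟩
    have hdE : ∀ u v, del E x y u v → E u v := fun u v h => h.1
    by_cases hsep : ∀ S : Finset W, (∀ l, IsAB (del E x y) A B l → ∃ z ∈ l, z ∈ S) → k ≤ S.card
    · obtain ⟨P, hP, hd⟩ := ih _ hlt (del E x y) A B k rfl hsep
      refine ⟨P, fun i => ?_, hd⟩
      obtain ⟨h1, h2, h3, h4, h5⟩ := hP i
      exact ⟨h1, h2, h3.imp hdE, h4, h5⟩
    · push Not at hsep
      obtain ⟨S, hS, hSk⟩ := hsep
      -- the two separators of `E`
      have hXs : ∀ l, IsAB E A B l → ∃ z ∈ l, z ∈ insert x S := by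
        intro l hl
        by_cases hx : x ∈ l
        · exact ⟨x, hx, Finset.mem_insert_self x S⟩
        · obtain ⟨h1, h2, h3, h4, h5⟩ := hl
          obtain ⟨z, hz, hz'⟩ := hS l ⟨h1, h2, chain_del_left h3 hx, h4, h5⟩
          exact ⟨z, hz, Finset.mem_insert_of_mem hz'⟩
      have hYs : ∀ l, IsAB E A B l → ∃ z ∈ l, z ∈ insert y S := by
        intro l hl
        by_cases hy : y ∈ l
        · exact ⟨y, hy, Finset.mem_insert_self y S⟩
        · obtain ⟨h1, h2, h3, h4, h5⟩ := hl
          obtain ⟨z, hz, hz'⟩ := hS l ⟨h1, h2, chain_del_right h3 hy, h4, h5⟩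
          exact ⟨z, hz, Finset.mem_insert_of_mem hz'⟩
      have hXk := hk (insert x S) hXs
      have hYk := hk (insert y S) hYs
      have hxS : x ∉ S := by
        intro h
        rw [Finset.insert_eq_of_mem h] at hXk
        omega
      have hyS : y ∉ S := by
        intro h
        rw [Finset.insert_eq_of_mem h] at hYk
        omega
      have hXc : (insert x S).card = k := by
        have := Finset.card_insert_of_notMem hxS
        omega
      have hYc : (insert y S).card = k := by
        have := Finset.card_insert_of_notMem hyS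
        omega
      -- the first family
      obtain ⟨P, hP, hPd⟩ := ih _ hlt (del E x y) A (↑(insert x S) : Set W) k rfl (by
        intro T hT
        apply hk T
        intro l hl
        obtain ⟨l1, c, l2, h1, h2, h3⟩ := first_mem (↑(insert x S) : Set W) l (hXs l hl)
        obtain ⟨a, ha, b, hb, hw, hnd⟩ := isAB_iff.mp hl
        subst h1
        have h4 := (Wk.split.mp hw).1
        have hx1 : x ∉ l1 := fun h => h3 x h (Finset.mem_coe.mpr (Finset.mem_insert_self x S))
        have h5 : IsAB (del E x y) A (↑(insert x S) : Set W) (l1 ++ [c]) := by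
          refine isAB_iff.mpr ⟨a, ha, c, h2, ⟨chain_del_prefix l1 c h4.1 hx1, h4.2.1, h4.2.2⟩, ?_⟩
          refine hnd.sublist ?_
          exact List.Sublist.append_left (by simp) l1
        obtain ⟨z, hz, hz'⟩ := hT _ h5
        refine ⟨z, ?_, hz'⟩
        rcases List.mem_append.mp hz with hz | hz
        · exact List.mem_append_left _ hz
        · exact List.mem_append_right _ (by
            rw [List.mem_singleton.mp hz]
            exact List.mem_cons_self))
      obtain ⟨Q, hQ, hQd⟩ := ih _ hlt (del E x y) (↑(insert y S) : Set W) B k rfl (by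
        intro T hT
        apply hk T
        intro l hl
        obtain ⟨l1, c, l2, h1, h2, h3⟩ := last_mem' (↑(insert y S) : Set W) l (hYs l hl)
        obtain ⟨a, ha, b, hb, hw, hnd⟩ := isAB_iff.mp hl
        subst h1
        have h4 := (Wk.split.mp hw).2
        have hy1 : y ∉ l2 := fun h => h3 y h (Finset.mem_coe.mpr (Finset.mem_insert_self y S))
        have h5 : IsAB (del E x y) (↑(insert y S) : Set W) B (c :: l2) := by
          refine isAB_iff.mpr ⟨c, h2, b, hb, ⟨chain_del_suffix h4.1 hy1, h4.2.1, h4.2.2⟩, ?_⟩
          exact hnd.sublist (List.sublist_append_right l1 (c :: l2))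
        obtain ⟨z, hz, hz'⟩ := hT _ h5
        exact ⟨z, List.mem_append_right _ hz, hz'⟩)
      have hP' := fun i => isAB_iff.mp (hP i)
      have hQ' := fun i => isAB_iff.mp (hQ i)
      choose pa hpa pl hpl hPw hPn using hP'
      choose qf hqf qb hqb hQw hQn using hQ'
      have hplinj : Function.Injective pl := by
        intro i j hij
        by_contra hne
        exact hPd i j hne (hPw i).last_mem (hij ▸ (hPw j).last_mem)
      have hqfinj : Function.Injective qf := by
        intro i j hij
        by_contra hne
        exact hQd i j hne (hQw i).head_mem (hij ▸ (hQw j).head_mem)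
      have hplsurj := surj hXc pl hplinj (fun i => Finset.mem_coe.mp (hpl i))
      have hqfsurj := surj hYc qf hqfinj (fun i => Finset.mem_coe.mp (hqf i))
      have hPX : ∀ i, ∀ z ∈ P i, z ∈ insert x S → z = pl i := by
        intro i z hz hzX
        obtain ⟨j, hj⟩ := hplsurj z hzX
        by_contra hne
        have hij : i ≠ j := fun h => hne (by rw [h, hj])
        exact hPd i j hij hz (hj ▸ (hPw j).last_mem)
      have hQY : ∀ j, ∀ z ∈ Q j, z ∈ insert y S → z = qf j := by
        intro i z hz hzX
        obtain ⟨j, hj⟩ := hqfsurj z hzX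
        by_contra hne
        have hij : i ≠ j := fun h => hne (by rw [h, hj])
        exact hQd i j hij hz (hj ▸ (hQw j).head_mem)
      have hPQ : ∀ i j z, z ∈ P i → z ∈ Q j → z ∈ S := by
        intro i j z hzP hzQ
        by_contra hzS
        obtain ⟨p1, p2, hp⟩ := List.append_of_mem hzP
        obtain ⟨q1, q2, hq⟩ := List.append_of_mem hzQ
        have h1 := hPw i
        have h2 := hQw j
        have hn1 := hPn i
        have hn2 := hQn j
        rw [hp] at h1 hn1
        rw [hq] at h2 hn2
        have h3 : Wk (del E x y) (pa i) (qb j) (p1 ++ z :: q2) :=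
          Wk.split.mpr ⟨(Wk.split.mp h1).1, (Wk.split.mp h2).2⟩
        obtain ⟨l', hl1, hl2, hl3⟩ := Wk.simple _ h3
        obtain ⟨s, hs, hs'⟩ := hS l' (isAB_iff.mpr ⟨_, hpa i, _, hqb j, hl3, hl1⟩)
        rcases List.mem_append.mp (hl2 s hs) with h4 | h4
        · have h5 : s = pl i := hPX i s (by rw [hp]; exact List.mem_append_left _ h4)
            (Finset.mem_insert_of_mem hs')
          have h6 : pl i ∈ z :: p2 := (Wk.split.mp h1).2.last_mem
          rw [← h5] at h6
          exact (List.disjoint_of_nodup_append hn1) h4 h6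
        · rcases List.mem_cons.mp h4 with h5 | h5
          · exact hzS (h5 ▸ hs')
          · have h6 : s = qf j := hQY j s (by
              rw [hq]
              exact List.mem_append_right _ (List.mem_cons_of_mem _ h5))
              (Finset.mem_insert_of_mem hs')
            have h7 : qf j ∈ q1 ++ [z] := (Wk.split.mp h2).1.head_mem
            rw [← h6] at h7
            rcases List.mem_append.mp h7 with h8 | h8
            · exact (List.disjoint_of_nodup_append hn2) h8 (List.mem_cons_of_mem _ h5)
            · exact hzS (List.mem_singleton.mp h8 ▸ hs')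
      -- the matching
      have hσ : ∀ i, ∃ j, (pl i ∈ S ∧ qf j = pl i) ∨ (pl i = x ∧ qf j = y) := by
        intro i
        rcases Finset.mem_insert.mp (Finset.mem_coe.mp (hpl i)) with h1 | h1
        · obtain ⟨j, hj⟩ := hqfsurj y (Finset.mem_insert_self y S)
          exact ⟨j, Or.inr ⟨h1, hj⟩⟩
        · obtain ⟨j, hj⟩ := hqfsurj (pl i) (Finset.mem_insert_of_mem h1)
          exact ⟨j, Or.inl ⟨h1, hj⟩⟩
      choose σ hσ using hσ
      have hσinj : Function.Injective σ := by
        intro i i' h
        rcases hσ i with ⟨h1, h2⟩ | ⟨h1, h2⟩ <;> rcases hσ i' with ⟨h3, h4⟩ | ⟨h3, h4⟩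
        · apply hplinj
          rw [← h2, ← h4, h]
        · exfalso
          apply hyS
          rw [← h4, ← h, h2]
          exact h1
        · exfalso
          apply hyS
          rw [← h2, h, h4]
          exact h3
        · apply hplinj
          rw [h1, h3]
      have hR : ∀ i, ∃ l : List W, Wk E (pa i) (qb (σ i)) l ∧ l.Nodup ∧
          ∀ v ∈ l, v ∈ P i ∨ v ∈ Q (σ i) := by
        intro i
        have h1 : ∃ l : List W, Wk E (pa i) (qb (σ i)) l ∧ ∀ v ∈ l, v ∈ P i ∨ v ∈ Q (σ i) := by
          have hp := (hPw i).mono hdE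
          have hq := (hQw (σ i)).mono hdE
          obtain ⟨p, hp'⟩ : ∃ p, P i = p ++ [pl i] := by
            have h2 := hp.2.2
            exact List.getLast?_eq_some_iff.mp h2
          obtain ⟨q, hq'⟩ : ∃ q, Q (σ i) = qf (σ i) :: q := by
            have h2 := hq.2.1
            exact List.head?_eq_some_iff.mp h2
          rcases hσ i with ⟨h2, h3⟩ | ⟨h2, h3⟩
          · refine ⟨p ++ pl i :: q, Wk.split.mpr ⟨hp' ▸ hp, ?_⟩, ?_⟩
            · rw [hq', h3] at hq
              exact hq
            · intro v hv
              rcases List.mem_append.mp hv with h4 | h4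
              · left
                rw [hp']
                exact List.mem_append_left _ h4
              · right
                rw [hq', h3]
                exact h4
          · have h4 : Wk E (pl i) (qb (σ i)) (pl i :: Q (σ i)) := by
              refine ⟨hq.1.cons ?_, rfl, ?_⟩
              · intro z hz
                have h5 := hq.2.1
                rw [h5, h3] at hz
                have h6 : y = z := by simpa using hz
                rw [h2, ← h6]
                exact hxy
              · have h5 := hq.2.2
                rw [hq'] at h5 ⊢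
                rw [List.getLast?_cons_cons]
                exact h5
            refine ⟨p ++ pl i :: Q (σ i), Wk.split.mpr ⟨hp' ▸ hp, h4⟩, ?_⟩
            intro v hv
            rcases List.mem_append.mp hv with h5 | h5
            · left
              rw [hp']
              exact List.mem_append_left _ h5
            · rcases List.mem_cons.mp h5 with h6 | h6
              · left
                rw [h6]
                exact hp.last_mem
              · right
                exact h6
        obtain ⟨l, hl, hl'⟩ := h1
        obtain ⟨l', h2, h3, h4⟩ := Wk.simple l hl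
        exact ⟨l', h4, h2, fun v hv => hl' v (h3 v hv)⟩
      choose R hR1 hR2 hR3 using hR
      refine ⟨R, fun i => isAB_iff.mpr ⟨pa i, hpa i, qb (σ i), hqb (σ i), hR1 i, hR2 i⟩, ?_⟩
      have key : ∀ i j, i ≠ j → ∀ v, v ∈ P i → v ∈ Q (σ j) → False := by
        intro i j hij v hv hv'
        have h1 := hPQ i (σ j) v hv hv'
        have h2 := hPX i v hv (Finset.mem_insert_of_mem h1)
        have h3 := hQY (σ j) v hv' (Finset.mem_insert_of_mem h1)
        rcases hσ i with ⟨h4, h5⟩ | ⟨h4, h5⟩
        · apply hij
          apply hσinj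
          apply hqfinj
          rw [h5, ← h2, h3]
        · apply hxS
          rw [← h4, ← h2]
          exact h1
      intro i j hij v hv hv'
      rcases hR3 i v hv with h1 | h1 <;> rcases hR3 j v hv' with h2 | h2
      · exact hPd i j hij h1 h2
      · exact key i j hij v h1 h2
      · exact key j i hij.symm v h2 h1
      · exact hQd (σ i) (σ j) (fun h => hij (hσinj h)) h1 h2
  · -- no arcs
    push Not at hE
    have h1 : k ≤ (Finset.univ.filter (fun z => z ∈ A ∧ z ∈ B)).card := by
      apply hk
      intro l hl
      obtain ⟨a, ha, b, hb, hw, hnd⟩ := isAB_iff.mp hl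
      rcases l with _ | ⟨c, t⟩
      · exact absurd hw.2.1 (by simp)
      · rcases t with _ | ⟨d, t'⟩
        · have h2 : c = a := by
            have := hw.2.1
            simpa using this
          have h3 : c = b := by
            have := hw.2.2
            simpa using this
          refine ⟨c, List.mem_cons_self, ?_⟩
          rw [Finset.mem_filter]
          refine ⟨Finset.mem_univ c, h2 ▸ ha, h3 ▸ hb⟩
        · have := hw.1
          rw [List.isChain_cons_cons] at this
          exact absurd this.1 (hE c d)
    obtain ⟨T, hT1, hT2⟩ := Finset.exists_subset_card_eq h1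
    let e : Fin k ≃ T := (T.equivFinOfCardEq hT2).symm
    refine ⟨fun i => [(e i : W)], ?_, ?_⟩
    · intro i
      have h2 := (Finset.mem_filter.mp (hT1 (e i).2)).2
      exact isAB_iff.mpr ⟨e i, h2.1, e i, h2.2,
        ⟨List.isChain_singleton _, rfl, rfl⟩, List.nodup_singleton _⟩
    · intro i j hij v hv hv'
      have h2 := List.mem_singleton.mp hv
      have h3 := List.mem_singleton.mp hv'
      apply hij
      apply e.injective
      apply Subtype.ext
      rw [← h2, ← h3]

end Menger

theorem menger : StmtMenger := by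
  intro W _ E A B k hk
  exact Menger.aux _ E A B k rfl hk

end BiP4
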