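import Pool.Agent.Work.MP_d76268_co.Defs

/-! # MP_d76268_co: the patterns and the lists of forbidden configurations (generated) -/

namespace BiP4

def patW1 : Pat :=
  ⟨5, [(0, 1, 0), (1, 0, 0), (2, 3, 0), (3, 2, 0), (0, 2, 1), (3, 1, 0), (4, 4, 0)]⟩

def patW2 : Pat :=
  ⟨4, [(0, 0, 0), (1, 2, 0), (2, 1, 0), (0, 1, 1), (2, 0, 0), (3, 3, 0)]⟩

def patS : Pat :=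
  ⟨4, [(0, 1, 0), (1, 0, 0), (2, 2, 0), (0, 2, 1), (2, 1, 0), (3, 3, 0)]⟩

def patS2 : Pat :=
  ⟨4, [(0, 1, 2), (1, 0, 0), (2, 2, 0), (0, 2, 1), (2, 1, 0), (3, 3, 0)]⟩

def patW1u : Pat :=
  ⟨5, [(0, 1, 0), (1, 0, 0), (2, 3, 0), (3, 2, 0), (0, 2, 0), (3, 1, 0), (4, 4, 0)]⟩

def patW2u : Pat :=
  ⟨4, [(0, 0, 0), (1, 2, 0), (2, 1, 0), (0, 1, 0), (2, 0, 0), (3, 3, 0)]⟩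

def patSu : Pat :=
  ⟨4, [(0, 1, 0), (1, 0, 0), (2, 2, 0), (0, 2, 0), (2, 1, 0), (3, 3, 0)]⟩

def patTRI : Pat :=
  ⟨3, [(0, 0, 0), (1, 1, 0), (0, 1, 1), (2, 2, 0)]⟩

def patTRIPu : Pat :=
  ⟨3, [(0, 0, 0), (1, 1, 0), (0, 1, 1), (1, 2, 0), (2, 2, 0)]⟩

def patTRIP : Pat :=
  ⟨3, [(0, 0, 0), (1, 1, 0), (0, 1, 1), (1, 2, 4), (2, 2, 0)]⟩

def patWJ1u : Pat :=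
  ⟨5, [(0, 1, 0), (1, 0, 0), (2, 3, 0), (3, 2, 0), (0, 2, 1), (3, 1, 0), (2, 4, 0), (4, 4, 0)]⟩

def patWJ2u : Pat :=
  ⟨4, [(0, 0, 0), (1, 2, 0), (2, 1, 0), (0, 1, 1), (2, 0, 0), (1, 3, 0), (3, 3, 0)]⟩

def patWJ1a : Pat :=
  ⟨5, [(0, 1, 0), (1, 0, 0), (2, 3, 2), (3, 2, 0), (0, 2, 1), (3, 1, 0), (2, 4, 0), (4, 4, 0)]⟩

def patWJ2a : Pat :=
  ⟨4, [(0, 0, 0), (1, 2, 2), (2, 1, 0), (0, 1, 1), (2, 0, 0), (1, 3, 0), (3, 3, 0)]⟩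

def patWJ2b : Pat :=
  ⟨4, [(0, 0, 0), (1, 2, 2), (2, 1, 0), (0, 1, 1), (2, 0, 0), (1, 3, 4), (3, 3, 0)]⟩

def patWJ1b : Pat :=
  ⟨5, [(0, 1, 3), (1, 0, 0), (2, 3, 2), (3, 2, 0), (0, 2, 1), (3, 1, 0), (2, 4, 0), (4, 4, 0)]⟩

def patWJ1c : Pat :=
  ⟨5, [(0, 1, 3), (1, 0, 0), (2, 3, 2), (3, 2, 0), (0, 2, 1), (3, 1, 0), (2, 4, 4), (4, 4, 0)]⟩

def patS3x1 : Pat :=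
  ⟨4, [(0, 1, 2), (1, 0, 0), (0, 2, 1), (2, 1, 0), (2, 2, 0), (0, 3, 3), (3, 3, 0)]⟩

def patS3y1 : Pat :=
  ⟨4, [(0, 1, 2), (1, 0, 0), (0, 2, 1), (2, 1, 0), (2, 2, 0), (1, 3, 3), (3, 3, 0)]⟩

def patS3b1 : Pat :=
  ⟨4, [(0, 1, 2), (1, 0, 0), (0, 2, 1), (2, 1, 0), (2, 2, 0), (2, 3, 3), (3, 3, 0)]⟩

def patS3I : Pat :=
  ⟨5, [(0, 1, 2), (1, 2, 2), (2, 0, 0), (0, 3, 1), (3, 2, 0), (3, 3, 0), (1, 4, 3), (4, 4, 0)]⟩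

def patS3J : Pat :=
  ⟨5, [(0, 1, 2), (1, 2, 0), (2, 0, 0), (0, 3, 1), (3, 1, 0), (3, 3, 0), (2, 4, 3), (4, 4, 0)]⟩

def patS3R : Pat :=
  ⟨5, [(0, 1, 2), (1, 0, 0), (0, 2, 1), (2, 3, 1), (3, 1, 0), (3, 3, 0), (2, 4, 3), (4, 4, 0)]⟩

def patS3P : Pat :=
  ⟨5, [(0, 1, 2), (1, 0, 0), (0, 2, 1), (2, 3, 0), (3, 1, 0), (2, 2, 0), (3, 4, 3), (4, 4, 0)]⟩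

def patS3L : Pat :=
  ⟨5, [(0, 1, 2), (1, 0, 0), (0, 2, 1), (2, 1, 0), (2, 3, 0), (3, 2, 0), (3, 4, 3), (4, 4, 0)]⟩

def specsA : List Spec :=
  [⟨patP4, 0⟩,
   ⟨patW1u, 0⟩,
   ⟨patW2u, 0⟩,
   ⟨patSu, 0⟩,
   ⟨patTRI, 1⟩,
   ⟨patTRIPu, 0⟩]

def specsB : List Spec :=
  [⟨patP4, 0⟩,
   ⟨patW1u, 0⟩,
   ⟨patW2u, 0⟩,
   ⟨patSu, 0⟩,
   ⟨patTRI, 1⟩,
   ⟨patTRIP, 4⟩]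

def specsC : List Spec :=
  [⟨patP4, 0⟩,
   ⟨patW1, 1⟩,
   ⟨patW2, 1⟩,
   ⟨patS, 1⟩,
   ⟨patS, 0⟩,
   ⟨patWJ1u, 0⟩,
   ⟨patWJ2u, 0⟩]

def specsD : List Spec :=
  [⟨patP4, 0⟩,
   ⟨patW1, 1⟩,
   ⟨patW2, 1⟩,
   ⟨patS, 1⟩,
   ⟨patS, 0⟩,
   ⟨patWJ1a, 2⟩,
   ⟨patWJ2a, 2⟩,
   ⟨patWJ2b, 4⟩]

def specsE1 : List Spec :=
  [⟨patP4, 0⟩,
   ⟨patW1, 1⟩,
   ⟨patW2, 1⟩,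
   ⟨patS, 1⟩,
   ⟨patS2, 2⟩,
   ⟨patS3x1, 3⟩,
   ⟨patS3y1, 3⟩,
   ⟨patS3b1, 3⟩,
   ⟨patS3I, 3⟩,
   ⟨patS3J, 3⟩,
   ⟨patS3R, 3⟩,
   ⟨patS3P, 3⟩,
   ⟨patS3L, 3⟩]

def specsE2 : List Spec :=
  [⟨patP4, 0⟩,
   ⟨patW1, 1⟩,
   ⟨patW2, 1⟩,
   ⟨patS, 1⟩,
   ⟨patS, 0⟩,
   ⟨patWJ1a, 2⟩,
   ⟨patWJ2a, 2⟩,
   ⟨patWJ2a, 0⟩,
   ⟨patWJ1b, 3⟩,
   ⟨patWJ1c, 4⟩]

end BiP4
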