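import Pool.Agent.Work.MP_d76268_co.Defs

/-!
# MP_d76268_co: statements of the steps

Every step is a `Prop` (never an axiom); the proofs are in separate files.
-/

namespace BiP4

/-- Menger's theorem for finite digraphs, set version. -/
def StmtMenger : Prop := ∀ (W : Type) [Fintype W] (E : W → W → Prop) (A B : Set W) (k : ℕ),
  (∀ S : Finset W, (∀ l, IsAB E A B l → ∃ x ∈ l, x ∈ S) → k ≤ S.card) →
  ∃ P : Fin k → List W, (∀ i, IsAB E A B (P i)) ∧ ∀ i j, i ≠ j → List.Disjoint (P i) (P j)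

/-- a fan from `v` to `Tg`: paths `v → t i` with interiors `l i`, distinct ends, disjoint
interiors, which avoid `Tg` and `v` -/
def IsFan {V : Type} (E : V → V → Prop) (v : V) (Tg : Finset V) (k : ℕ) (l : Fin k → List V)
    (t : Fin k → V) : Prop :=
  (∀ i, Seg E v (l i) (t i)) ∧ (∀ i, (l i).Nodup) ∧ (∀ i, t i ∈ Tg) ∧ Function.Injective t ∧
  (∀ i j, i ≠ j → List.Disjoint (l i) (l j)) ∧ (∀ i, ∀ x ∈ l i, x ∉ Tg ∧ x ≠ v)

/-- A fan with `k` paths extends to a fan with `k+1` paths, keeping the `k` ends, if no set of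
at most `k` vertices separates. -/
def StmtFan : Prop := ∀ (V : Type) [Fintype V] [DecidableEq V] (E : V → V → Prop) (v : V)
  (Tg : Finset V) (k : ℕ) (l : Fin k → List V) (t : Fin k → V), v ∉ Tg → IsFan E v Tg k l t →
  (∀ Y : Finset V, v ∉ Y → Y.card ≤ k →
    ∃ (q : List V) (s : V), Seg E v q s ∧ s ∈ Tg ∧ s ∉ Y ∧ ∀ x ∈ q, x ∉ Y) →
  ∃ (l' : Fin (k + 1) → List V) (t' : Fin (k + 1) → V), IsFan E v Tg (k + 1) l' t' ∧
    ∀ i, ∃ j, t' j = t i

/-- Either there are a path `t → s` and a cycle through `t`, disjoint outside `t`, or one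
vertex `y` meets all paths `t → s` and all cycles through `t` that avoid `s`. -/
def StmtTwoPath : Prop := ∀ (V : Type) [Fintype V] [DecidableEq V] (E : V → V → Prop)
  (S : Set V) (s t : V), (∀ x ∈ S, ¬ E x x) → s ∈ S → t ∈ S → s ≠ t →
  (∃ l, Seg E t l s ∧ ∀ x ∈ l, x ∈ S) →
  (∃ l2 l3, Seg E t l2 s ∧ Seg E t l3 t ∧ (s :: t :: (l2 ++ l3)).Nodup ∧
    ∀ x ∈ l2 ++ l3, x ∈ S) ∨
  (∃ y, y ≠ t ∧ (∀ l, Seg E t l s → (∀ x ∈ l, x ∈ S) → y ∈ l ++ [s]) ∧
     (∀ l, Seg E t l t → (∀ x ∈ l, x ∈ S ∧ x ≠ s) → y ∈ l))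

/-- Rooted bioriented `P3`. -/
def StmtL1 : Prop := ∀ (V : Type) [Fintype V] [DecidableEq V] (E : V → V → Prop)
  (S : Set V) (s : V), (∀ x ∈ S, ¬ E x x) → s ∈ S → (∃ x ∈ S, x ≠ s) → StrongOn E S →
  (∀ x ∈ S, x ≠ s → Out2 E S x) →
  ∃ (b : V) (l1 l2 l3 : List V), (∀ x ∈ b :: (l1 ++ l2 ++ l3), x ∈ S) ∧
    Seg E s l1 b ∧ Seg E b l2 s ∧ Seg E b l3 b ∧ (s :: b :: (l1 ++ l2 ++ l3)).Nodup

/-- A strong subdigraph with out-degrees at least two that is disjoint from a cycle gives the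
bioriented `P4`. -/
def StmtL2 : Prop := ∀ (V : Type) [Fintype V] [DecidableEq V] (E : V → V → Prop),
  (∀ x, ¬ E x x) → StrongOn E Set.univ → (∀ x, Out2 E Set.univ x) →
  ∀ Q : Set V, Q.Nonempty → StrongOn E Q → (∀ x ∈ Q, Out2 E Q x) →
  ∀ (a : V) (l : List V), Cyc E a l → (∀ x ∈ a :: l, x ∉ Q) → Nonempty (Emb E patP4)

/-- Terminal strong component inside a set. -/
def StmtTerminal : Prop := ∀ (V : Type) [Fintype V] (E : V → V → Prop) (R : Set V),
  R.Nonempty → ∃ Q : Set V, Q ⊆ R ∧ Q.Nonempty ∧ StrongOn E Q ∧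
    ∀ x ∈ Q, ∀ y ∈ R, E x y → y ∈ Q

/-- `v` has at least `d` out-neighbours -/
def OutGe {V : Type} (E : V → V → Prop) (d : ℕ) (v : V) : Prop :=
  ∃ F : Finset V, d ≤ F.card ∧ ∀ x ∈ F, E v x

/-- No separation by two vertices if there is no bioriented `P4`. -/
def StmtNoSep : Prop := ∀ (V : Type) [Fintype V] [DecidableEq V] (E : V → V → Prop),
  (∀ x, ¬ E x x) → StrongOn E Set.univ → (∀ v, OutGe E 4 v) → ¬ Nonempty (Emb E patP4) →
  NoSep E 2

/-! ## Disjoint cycles -/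

/-- `k` pairwise disjoint directed cycles -/
def HasCyc {V : Type} (E : V → V → Prop) (k : ℕ) : Prop :=
  ∃ (a : Fin k → V) (l : Fin k → List V), (∀ i, Cyc E (a i) (l i)) ∧
    ∀ i j, i ≠ j → List.Disjoint (a i :: l i) (a j :: l j)

/-- Contraction of an arc without common in-neighbour. -/
def StmtContract : Prop := ∀ (V : Type) [Fintype V] [DecidableEq V] (E : V → V → Prop)
  (r k : ℕ) (u v : V), (∀ x, ¬ E x x) → (∀ x y, E x y → ¬ E y x) → (∀ x, OutGe E r x) →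
  E u v → (∀ w, E w u → ¬ E w v) →
  ∃ (V' : Type) (_ : Fintype V') (_ : DecidableEq V') (E' : V' → V' → Prop), Nonempty V' ∧
    Fintype.card V' < Fintype.card V ∧ (∀ x, ¬ E' x x) ∧ (∀ x, OutGe E' r x) ∧
    (HasCyc E' k → HasCyc E k)

/-- Deletion of a digon. -/
def StmtDigon : Prop := ∀ (V : Type) [Fintype V] [DecidableEq V] (E : V → V → Prop)
  (r k : ℕ) (u v : V), 1 ≤ r → (∀ x, ¬ E x x) → (∀ x, OutGe E (r + 2) x) → E u v → E v u →
  ∃ (V' : Type) (_ : Fintype V') (_ : DecidableEq V') (E' : V' → V' → Prop), Nonempty V' ∧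
    Fintype.card V' < Fintype.card V ∧ (∀ x, ¬ E' x x) ∧ (∀ x, OutGe E' r x) ∧
    (HasCyc E' k → HasCyc E (k + 1))

/-- Deletion of a source. -/
def StmtSource : Prop := ∀ (V : Type) [Fintype V] [DecidableEq V] (E : V → V → Prop)
  (r k : ℕ) (u : V), 1 ≤ r → (∀ x, ¬ E x x) → (∀ x, OutGe E r x) → (∀ w, ¬ E w u) →
  ∃ (V' : Type) (_ : Fintype V') (_ : DecidableEq V') (E' : V' → V' → Prop), Nonempty V' ∧
    Fintype.card V' < Fintype.card V ∧ (∀ x, ¬ E' x x) ∧ (∀ x, OutGe E' r x) ∧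
    (HasCyc E' k → HasCyc E k)

/-- If all out-degrees are `r`, every arc has a common in-neighbour and there are no `k+1`
disjoint cycles, then there are at most `4 k r^2` vertices. -/
def StmtBound : Prop := ∀ (V : Type) [Fintype V] [DecidableEq V] (E : V → V → Prop)
  [DecidableRel E] (r k : ℕ), 1 ≤ r → (∀ x, ¬ E x x) →
  (∀ x, (Finset.univ.filter (fun y => E x y)).card = r) →
  (∀ v, ∃ w, E w v) → (∀ u v, E u v → ∃ w, E w u ∧ E w v) →
  ¬ HasCyc E (k + 1) → Fintype.card V ≤ 4 * k * r ^ 2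

/-- Colouring argument with `q` colours. -/
def StmtColour : Prop := ∀ (V : Type) [Fintype V] [DecidableEq V] (E : V → V → Prop)
  (r q : ℕ), 1 ≤ q → (∀ x, ¬ E x x) → (∀ x, OutGe E r x) →
  Fintype.card V * (q - 1) ^ r * q ^ (Fintype.card V - r) + q * (q - 1) ^ Fintype.card V <
    q ^ Fintype.card V → HasCyc E q

/-- Three disjoint cycles. -/
def StmtThree : Prop := ∀ (V : Type) [Fintype V] [DecidableEq V] (E : V → V → Prop),
  Nonempty V → (∀ x, ¬ E x x) → (∀ v, OutGe E 32 v) → HasCyc E 3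

/-! ## The engine -/

/-- Concatenation of the paths of an embedding along a walk of the pattern. -/
def StmtWalk : Prop := ∀ (V : Type) (E : V → V → Prop) (P : Pat) (φ : Emb E P) (w : List ℕ)
  (a b : ℕ), walkB P a b w = true →
  Seg E (φ.β a) (catP φ w) (φ.β b) ∧
  (∀ x ∈ catP φ w, (∃ k ∈ w, x ∈ φ.π k) ∨ ∃ y ∈ inner P w, x = φ.β y) ∧
  (catP φ w).length + 1 = (w.map (fun k => (φ.π k).length + 1)).sum ∧
  (P.Wf → w.Nodup → (inner P w).Nodup → (catP φ w).Nodup) ∧ (∀ k ∈ w, k < P.m) ∧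
  (∀ y ∈ inner P w, ∃ k ∈ w, y = P.dst k) ∧ (∀ y ∈ inner P w, ∃ k ∈ w, y = P.src k)

/-- Restriction of an embedding along a certified topological embedding of patterns. -/
def StmtRestrict : Prop := ∀ (V : Type) (E : V → V → Prop) (Q P : Pat) (lt : ℕ) (c : PMap),
  okMap Q P lt c = true → P.Wf → ∀ φ : Emb E P, ∃ ψ : Emb E Q,
    (∀ k < Q.m, Q.lab k ≠ 0 → Q.lab k ≠ lt → ψ.len (Q.lab k) = φ.len (Q.lab k)) ∧
    (lt ≠ 0 → ψ.len lt < φ.len lt)

/-- One move of the game. -/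
def StmtStep : Prop := ∀ (V : Type) [Fintype V] [DecidableEq V] (E : V → V → Prop),
  (∀ x, ¬ E x x) → NoSep E 2 → ∀ (P : Pat) (v : ℕ) (cyc : List ℕ), P.Wf → v < P.n →
  outdeg P v ≤ 2 → okOut P v = true → okCyc P v cyc = true → ∀ φ : Emb E P,
  ∃ C ∈ children P v, ∃ ψ : Emb E C, ∀ l, l ≠ 0 → ψ.len l = φ.len l

/-- Soundness of the certificates. -/
def StmtSound : Prop := ∀ (V : Type) [Fintype V] [DecidableEq V] (E : V → V → Prop)
  (m : ℕ → ℕ), (∀ x, ¬ E x x) → NoSep E 2 → ∀ (specs : List Spec) (nodes : List Node),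
  okAll specs nodes = true → (∀ s ∈ specs, s.Holds E m) →
  ∀ nd ∈ nodes, Spec.Holds E m ⟨nd.P, 0⟩

/-- exit path from the branch vertex `i` to the last loop -/
def exitV (P : Pat) (i : ℕ) : Pat := ⟨P.n, P.arcs ++ [(i, P.n - 1, 3)]⟩

/-- exit path from the interior of the arc `k` to the last loop -/
def exitE (P : Pat) (k : ℕ) : Pat :=
  ⟨P.n + 1, P.arcs.set k (P.src k, P.n, P.lab k) ++
    [(P.n, P.dst k, P.lab k), (P.n, P.n - 1, 3)]⟩

def exits (P : Pat) : List Pat :=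
  (List.range (P.n - 1)).map (exitV P) ++ (List.range (P.m - 1)).map (exitE P)

/-- If the last arc of the pattern is an isolated loop, then there is a path from the rest to
this loop. -/
def StmtExit : Prop := ∀ (V : Type) [Fintype V] [DecidableEq V] (E : V → V → Prop),
  StrongOn E Set.univ → ∀ (P : Pat) (A : List (ℕ × ℕ × ℕ)), 2 ≤ P.n →
  P.arcs = A ++ [(P.n - 1, P.n - 1, 0)] →
  (∀ a ∈ A, a.1 < P.n - 1 ∧ a.2.1 < P.n - 1 ∧ a.2.2 ≠ 3) → ∀ φ : Emb E P,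
  ∃ C ∈ exits P, ∃ ψ : Emb E C, ∀ l, l ≠ 0 → l ≠ 3 → ψ.len l = φ.len l

/-- The theorem for strong digraphs. -/
def StmtStrong : Prop := ∀ (V : Type) [Fintype V] [DecidableEq V] (E : V → V → Prop),
  Nonempty V → (∀ x, ¬ E x x) → StrongOn E Set.univ → (∀ v, OutGe E 32 v) →
  Nonempty (Emb E patP4)

end BiP4
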