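import Pool.Agent.Work.MP_d76268_co.Stmts
import Pool.Agent.Work.MP_d76268_co.Bd.B01

/-!
# MP_d76268_co: assembly for strong digraphs
-/

namespace BiP4

/-- same pattern up to labels -/
def sameShape (P' P : Pat) : Bool :=
  (P'.n == P.n) && (P'.arcs.map (fun a => (a.1, a.2.1)) == P.arcs.map (fun a => (a.1, a.2.1)))

/-- the label `l` is carried by the same arcs -/
def sameLab (P' P : Pat) (l : ℕ) : Bool :=
  (List.range P.m).all (fun k => (P'.lab k == l) == (P.lab k == l))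

theorem getD_map_pair (L : List (ℕ × ℕ × ℕ)) (k : ℕ) :
    (L.map (fun a => (a.1, a.2.1))).getD k (0, 0) =
      ((L.getD k (0, 0, 0)).1, (L.getD k (0, 0, 0)).2.1) := by
  induction L generalizing k with
  | nil => simp
  | cons a L ih =>
    cases k with
    | zero => simp
    | succ k => simpa using ih k

theorem relabel {V : Type} {E : V → V → Prop} {P P' : Pat} (h : sameShape P' P = true)
    (φ : Emb E P) : ∃ ψ : Emb E P', ∀ l, sameLab P' P l = true → ψ.len l = φ.len l := by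
  simp only [sameShape, Bool.and_eq_true, beq_iff_eq] at h
  obtain ⟨hn, ha⟩ := h
  have hm : P'.m = P.m := by
    have := congrArg List.length ha
    simpa [Pat.m] using this
  have hs : ∀ k, P'.src k = P.src k := by
    intro k
    have := congrArg (fun L => (L.getD k (0, 0)).1) ha
    simp only [getD_map_pair] at this
    exact this
  have hd : ∀ k, P'.dst k = P.dst k := by
    intro k
    have := congrArg (fun L => (L.getD k (0, 0)).2) ha
    simp only [getD_map_pair] at this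
    exact this
  refine ⟨⟨φ.β, φ.π, ?_, ?_, ?_, ?_, ?_, ?_⟩, ?_⟩
  · rw [hn]; exact φ.inj
  · rw [hm]; intro k hk; rw [hs, hd]; exact φ.seg k hk
  · rw [hm]; exact φ.nodup
  · rw [hm]; exact φ.disj
  · rw [hm, hn]; exact φ.avoid
  · rw [hm]; intro k hk k' hk' hne h1 h2
    rw [hs, hs] at h1
    rw [hd, hd] at h2
    exact φ.npar k hk k' hk' hne h1 h2
  · intro l hl
    change ∑ k ∈ (Finset.range P'.m).filter (fun k => P'.lab k = l), ((φ.π k).length + 1) =
      ∑ k ∈ (Finset.range P.m).filter (fun k => P.lab k = l), ((φ.π k).length + 1)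
    rw [hm]
    apply Finset.sum_congr _ (fun _ _ => rfl)
    apply Finset.filter_congr
    intro k hk
    simp only [sameLab, List.all_eq_true, List.mem_range] at hl
    have := hl k (Finset.mem_range.1 hk)
    rw [beq_iff_eq] at this
    rw [← beq_iff_eq, ← beq_iff_eq (a := P.lab k), this]

theorem exists_min_of {α : Type*} (p : α → Prop) (f : α → ℕ) (h : ∃ a, p a) :
    ∃ a, p a ∧ ∀ b, p b → f a ≤ f b := by
  classical
  have hex : ∃ n, ∃ a, p a ∧ f a = n := by
    obtain ⟨a, ha⟩ := h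
    exact ⟨f a, a, ha, rfl⟩
  obtain ⟨a, ha, hfa⟩ := Nat.find_spec hex
  refine ⟨a, ha, fun b hb => ?_⟩
  rw [hfa]
  exact Nat.find_min' hex ⟨b, hb, rfl⟩

def wfB (P : Pat) : Bool := P.arcs.all (fun a => decide (a.1 < P.n) && decide (a.2.1 < P.n))

theorem wf_of_wfB {P : Pat} (h : wfB P = true) : P.Wf := by
  intro k hk
  simp only [wfB, List.all_eq_true, Bool.and_eq_true, decide_eq_true_eq] at h
  have hk' : k < P.arcs.length := hk
  have hmem : P.arcs.getD k (0, 0, 0) ∈ P.arcs := by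
    rw [List.getD_eq_getElem _ _ hk']
    exact List.getElem_mem hk'
  exact h _ hmem

/-- labels of `P` occur in `Q` -/
def labSub (P Q : Pat) : Bool :=
  P.arcs.all (fun a => (a.2.2 == 0) || Q.arcs.any (fun b => b.2.2 == a.2.2))

theorem lab_mem_of_labSub {P Q : Pat} (h : labSub P Q = true) {k : ℕ} (hk : k < P.m)
    (h0 : P.lab k ≠ 0) : ∃ k' < Q.m, Q.lab k' = P.lab k := by
  simp only [labSub, List.all_eq_true, Bool.or_eq_true, beq_iff_eq, List.any_eq_true] at h
  have hk' : k < P.arcs.length := hk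
  have hmem : P.arcs.getD k (0, 0, 0) ∈ P.arcs := by
    rw [List.getD_eq_getElem _ _ hk']
    exact List.getElem_mem hk'
  rcases h _ hmem with h | ⟨b, hb, hbe⟩
  · exact absurd h h0
  · obtain ⟨k', hk'', rfl⟩ := List.getElem_of_mem hb
    refine ⟨k', hk'', ?_⟩
    rw [← List.getD_eq_getElem _ (0, 0, 0) hk''] at hbe
    exact hbe

/-- the last position of a run, up to isomorphism -/
def rootB (nodes : List Node) (Q : Pat) (c : PMap) : Bool :=
  nodes.any (fun nd => okMap nd.P Q 0 c && labSub nd.P Q)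

theorem run_false (hS : StmtSound) (hR : StmtRestrict) {V : Type} [Fintype V] [DecidableEq V]
    {E : V → V → Prop} (m : ℕ → ℕ) (hE : ∀ x, ¬ E x x) (hN : NoSep E 2) (specs : List Spec)
    (nodes : List Node) (Q : Pat) (c : PMap) (hok : okAll specs nodes = true)
    (hQ : wfB Q = true) (hroot : rootB nodes Q c = true) (hs : ∀ s ∈ specs, s.Holds E m)
    (φ : Emb E Q) (hφ : ∀ k < Q.m, Q.lab k ≠ 0 → φ.len (Q.lab k) = m (Q.lab k)) : False := by
  simp only [rootB, List.any_eq_true, Bool.and_eq_true] at hroot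
  obtain ⟨nd, hnd, hmap, hlab⟩ := hroot
  obtain ⟨ψ, h1, _⟩ := hR V E nd.P Q 0 c hmap (wf_of_wfB hQ) φ
  refine hS V E m hE hN specs nodes hok hs nd hnd ψ ?_ (fun h => absurd rfl h)
  intro k hk h0 _
  rw [h1 k hk h0 h0]
  obtain ⟨k', hk', he⟩ := lab_mem_of_labSub hlab hk h0
  have h0' : Q.lab k' ≠ 0 := by rw [he]; exact h0
  have := hφ k' hk' h0'
  simp only [he] at this
  exact this

/-- restriction of an embedding along a certified map, labels preserved -/
theorem restrict0 (hR : StmtRestrict) {V : Type} {E : V → V → Prop} (Q P : Pat) (c : PMap)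
    (h : okMap Q P 0 c = true) (hP : wfB P = true) (φ : Emb E P) :
    ∃ ψ : Emb E Q, ∀ k < Q.m, Q.lab k ≠ 0 → ψ.len (Q.lab k) = φ.len (Q.lab k) := by
  obtain ⟨ψ, h1, _⟩ := hR V E Q P 0 c h (wf_of_wfB hP) φ
  exact ⟨ψ, fun k hk h0 => h1 k hk h0 h0⟩

def patCCC : Pat := ⟨3, [(0, 0, 0), (1, 1, 0), (2, 2, 0)]⟩

def patTRIu : Pat := ⟨3, [(0, 0, 0), (1, 1, 0), (0, 1, 0), (2, 2, 0)]⟩

theorem emb_CCC {V : Type} {E : V → V → Prop} (h : HasCyc E 3) : Nonempty (Emb E patCCC) := by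
  obtain ⟨a, l, hc, hd⟩ := h
  have hinj : ∀ i j : Fin 3, i ≠ j → a i ≠ a j := by
    intro i j hij he
    exact hd i j hij (List.mem_cons_self (a := a i)) (by rw [he]; exact List.mem_cons_self)
  let f : ℕ → Fin 3 := fun n => if n = 0 then 0 else if n = 1 then 1 else 2
  have hf : ∀ i < 3, ∀ j < 3, f i = f j → i = j := by decide
  have hsrc : ∀ k < 3, patCCC.src k = k := by decide
  have hdst : ∀ k < 3, patCCC.dst k = k := by decide
  have hdisj : ∀ i < 3, ∀ j < 3, i ≠ j → f i ≠ f j := by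
    intro i hi j hj hij he
    exact hij (hf i hi j hj he)
  refine ⟨⟨fun n => a (f n), fun n => l (f n), ?_, ?_, ?_, ?_, ?_, ?_⟩⟩
  · intro i hi j hj he
    by_contra hij
    exact hinj _ _ (hdisj i hi j hj hij) he
  · intro k hk
    have hk3 : k < 3 := hk
    rw [hsrc k hk3, hdst k hk3]
    exact (hc (f k)).1
  · intro k _
    exact (List.nodup_cons.1 (hc (f k)).2).2
  · intro k hk k' hk' hkk x hx hx'
    exact hd _ _ (hdisj k hk k' hk' hkk) (List.mem_cons_of_mem _ hx)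
      (List.mem_cons_of_mem _ hx')
  · intro k hk i hi hx
    by_cases hki : k = i
    · subst hki
      exact (List.nodup_cons.1 (hc (f k)).2).1 hx
    · exact hd _ _ (hdisj k hk i hi hki) (List.mem_cons_of_mem _ hx)
        (List.mem_cons_self (a := a (f i)))
  · intro k hk k' hk' hkk h1 _
    rw [hsrc k hk, hsrc k' hk'] at h1
    exact absurd h1 hkk

theorem emb_TRIu (hR : StmtRestrict) (hX : StmtExit) {V : Type} [Fintype V] [DecidableEq V]
    {E : V → V → Prop} (hst : StrongOn E Set.univ) (φ : Emb E patCCC) :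
    Nonempty (Emb E patTRIu) := by
  obtain ⟨C, hC, ψ, _⟩ := hX V E hst patCCC [(0, 0, 0), (1, 1, 0)] (by decide) (by decide)
    (by decide) φ
  have hex : exits patCCC =
      [⟨3, [(0, 0, 0), (1, 1, 0), (2, 2, 0), (0, 2, 3)]⟩,
       ⟨3, [(0, 0, 0), (1, 1, 0), (2, 2, 0), (1, 2, 3)]⟩,
       ⟨4, [(0, 3, 0), (1, 1, 0), (2, 2, 0), (3, 0, 0), (3, 2, 3)]⟩,
       ⟨4, [(0, 0, 0), (1, 3, 0), (2, 2, 0), (3, 1, 0), (3, 2, 3)]⟩] := by decide
  rw [hex] at hC
  simp only [List.mem_cons, List.not_mem_nil, or_false] at hC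
  rcases hC with rfl | rfl | rfl | rfl
  · obtain ⟨χ, _⟩ := restrict0 hR patTRIu _ ⟨[0, 2, 1], [[0], [2], [3], [1]]⟩ (by decide)
      (by decide) ψ
    exact ⟨χ⟩
  · obtain ⟨χ, _⟩ := restrict0 hR patTRIu _ ⟨[1, 2, 0], [[1], [2], [3], [0]]⟩ (by decide)
      (by decide) ψ
    exact ⟨χ⟩
  · obtain ⟨χ, _⟩ := restrict0 hR patTRIu _ ⟨[3, 2, 1], [[3, 0], [2], [4], [1]]⟩ (by decide)
      (by decide) ψ
    exact ⟨χ⟩
  · obtain ⟨χ, _⟩ := restrict0 hR patTRIu _ ⟨[3, 2, 0], [[3, 1], [2], [4], [0]]⟩ (by decide)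
      (by decide) ψ
    exact ⟨χ⟩

/-- the eight patterns of the third stage of Case 1 -/
def s3 : List Pat :=
  [patS3x1, patS3y1, patS3b1, patS3I, patS3J, patS3R, patS3P, patS3L]

theorem emb_S3 (hR : StmtRestrict) (hX : StmtExit) {V : Type} [Fintype V] [DecidableEq V]
    {E : V → V → Prop} (hst : StrongOn E Set.univ) (φ : Emb E patS2) :
    ∃ P ∈ s3, ∃ ψ : Emb E P, ψ.len 1 = φ.len 1 ∧ ψ.len 2 = φ.len 2 := by
  obtain ⟨C, hC, ψ, hψ⟩ := hX V E hst patS2
    [(0, 1, 2), (1, 0, 0), (2, 2, 0), (0, 2, 1), (2, 1, 0)] (by decide) (by decide)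
    (by decide) φ
  have h1 := hψ 1 (by decide) (by decide)
  have h2 := hψ 2 (by decide) (by decide)
  have hex : exits patS2 =
      [⟨4, [(0, 1, 2), (1, 0, 0), (2, 2, 0), (0, 2, 1), (2, 1, 0), (3, 3, 0), (0, 3, 3)]⟩,
       ⟨4, [(0, 1, 2), (1, 0, 0), (2, 2, 0), (0, 2, 1), (2, 1, 0), (3, 3, 0), (1, 3, 3)]⟩,
       ⟨4, [(0, 1, 2), (1, 0, 0), (2, 2, 0), (0, 2, 1), (2, 1, 0), (3, 3, 0), (2, 3, 3)]⟩,
       ⟨5, [(0, 4, 2), (1, 0, 0), (2, 2, 0), (0, 2, 1), (2, 1, 0), (3, 3, 0), (4, 1, 2),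
         (4, 3, 3)]⟩,
       ⟨5, [(0, 1, 2), (1, 4, 0), (2, 2, 0), (0, 2, 1), (2, 1, 0), (3, 3, 0), (4, 0, 0),
         (4, 3, 3)]⟩,
       ⟨5, [(0, 1, 2), (1, 0, 0), (2, 4, 0), (0, 2, 1), (2, 1, 0), (3, 3, 0), (4, 2, 0),
         (4, 3, 3)]⟩,
       ⟨5, [(0, 1, 2), (1, 0, 0), (2, 2, 0), (0, 4, 1), (2, 1, 0), (3, 3, 0), (4, 2, 1),
         (4, 3, 3)]⟩,
       ⟨5, [(0, 1, 2), (1, 0, 0), (2, 2, 0), (0, 2, 1), (2, 4, 0), (3, 3, 0), (4, 1, 0),
         (4, 3, 3)]⟩] := by decide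
  rw [hex] at hC
  simp only [List.mem_cons, List.not_mem_nil, or_false] at hC
  -- in every case: restriction
  have key : ∀ (P : Pat) (c : PMap) (k1 k2 : ℕ), P ∈ s3 → okMap P C 0 c = true →
      wfB C = true → k1 < P.m → P.lab k1 = 1 → k2 < P.m → P.lab k2 = 2 →
      ∃ P ∈ s3, ∃ ψ : Emb E P, ψ.len 1 = φ.len 1 ∧ ψ.len 2 = φ.len 2 := by
    intro P c k1 k2 hP hc hw hk1 hl1 hk2 hl2
    obtain ⟨χ, hχ⟩ := restrict0 hR P C c hc hw ψ
    have e1 := hχ k1 hk1 (by rw [hl1]; decide)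
    have e2 := hχ k2 hk2 (by rw [hl2]; decide)
    simp only [hl1] at e1
    simp only [hl2] at e2
    exact ⟨P, hP, χ, e1.trans h1, e2.trans h2⟩
  rcases hC with rfl | rfl | rfl | rfl | rfl | rfl | rfl | rfl
  · exact key patS3x1 ⟨[0, 1, 2, 3], [[0], [1], [3], [4], [2], [6], [5]]⟩ 2 0 (by decide)
      (by decide) (by decide) (by decide) (by decide) (by decide) (by decide)
  · exact key patS3y1 ⟨[0, 1, 2, 3], [[0], [1], [3], [4], [2], [6], [5]]⟩ 2 0 (by decide)
      (by decide) (by decide) (by decide) (by decide) (by decide) (by decide)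
  · exact key patS3b1 ⟨[0, 1, 2, 3], [[0], [1], [3], [4], [2], [6], [5]]⟩ 2 0 (by decide)
      (by decide) (by decide) (by decide) (by decide) (by decide) (by decide)
  · exact key patS3I ⟨[0, 4, 1, 2, 3], [[0], [6], [1], [3], [4], [2], [7], [5]]⟩ 3 0
      (by decide) (by decide) (by decide) (by decide) (by decide) (by decide) (by decide)
  · exact key patS3J ⟨[0, 1, 4, 2, 3], [[0], [1], [6], [3], [4], [2], [7], [5]]⟩ 3 0
      (by decide) (by decide) (by decide) (by decide) (by decide) (by decide) (by decide)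
  · exact key patS3L ⟨[0, 1, 2, 4, 3], [[0], [1], [3], [4], [2], [6], [7], [5]]⟩ 2 0
      (by decide) (by decide) (by decide) (by decide) (by decide) (by decide) (by decide)
  · exact key patS3R ⟨[0, 1, 4, 2, 3], [[0], [1], [3], [6], [4], [2], [7], [5]]⟩ 2 0
      (by decide) (by decide) (by decide) (by decide) (by decide) (by decide) (by decide)
  · exact key patS3P ⟨[0, 1, 2, 4, 3], [[0], [1], [3], [4], [6], [2], [7], [5]]⟩ 2 0
      (by decide) (by decide) (by decide) (by decide) (by decide) (by decide) (by decide)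

end BiP4
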