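import Mathlib

/-!
# MP_d76268_co: definitions for the formalisation

`Seg E a l b`: directed walk from `a` to `b` with interior vertices `l`.
`Pat`: pattern (multidigraph with labelled arcs), `Emb E P`: embedding of the pattern `P`
as a subdivision in the digraph `E`.
-/

namespace BiP4

universe u

/-- `Seg E a l b`: `a`, then the vertices of `l`, then `b` is a directed walk of `E`. -/
def Seg {V : Type u} (E : V → V → Prop) (a : V) (l : List V) (b : V) : Prop :=
  List.IsChain E (a :: (l ++ [b]))

/-- A pattern: `n` branch vertices `0, …, n-1` and a list of arcs `(source, target, label)`. -/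
structure Pat where
  n : ℕ
  arcs : List (ℕ × ℕ × ℕ)
deriving DecidableEq

namespace Pat
/-- number of arcs -/
def m (P : Pat) : ℕ := P.arcs.length
def src (P : Pat) (k : ℕ) : ℕ := (P.arcs.getD k (0, 0, 0)).1
def dst (P : Pat) (k : ℕ) : ℕ := (P.arcs.getD k (0, 0, 0)).2.1
def lab (P : Pat) (k : ℕ) : ℕ := (P.arcs.getD k (0, 0, 0)).2.2
/-- all endpoints are branch vertices -/
def Wf (P : Pat) : Prop := ∀ k < P.m, P.src k < P.n ∧ P.dst k < P.n
end Pat

/-- An embedding of the pattern `P` in the digraph `E` as a subdivision: `β` gives the branch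
vertices, `π k` the list of interior vertices of the path replacing the arc number `k`. -/
structure Emb {V : Type u} (E : V → V → Prop) (P : Pat) where
  β : ℕ → V
  π : ℕ → List V
  inj : ∀ i < P.n, ∀ j < P.n, β i = β j → i = j
  seg : ∀ k < P.m, Seg E (β (P.src k)) (π k) (β (P.dst k))
  nodup : ∀ k < P.m, (π k).Nodup
  disj : ∀ k < P.m, ∀ k' < P.m, k ≠ k' → List.Disjoint (π k) (π k')
  avoid : ∀ k < P.m, ∀ i < P.n, β i ∉ π k
  npar : ∀ k < P.m, ∀ k' < P.m, k ≠ k' → P.src k = P.src k' → P.dst k = P.dst k' →
    π k ≠ [] ∨ π k' ≠ []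

/-- total length (number of arcs) of the paths with label `l` -/
def Emb.len {V : Type u} {E : V → V → Prop} {P : Pat} (φ : Emb E P) (l : ℕ) : ℕ :=
  ∑ k ∈ (Finset.range P.m).filter (fun k => P.lab k = l), ((φ.π k).length + 1)

/-- the concatenation of the paths of `φ` along the list of arcs `w`, without the first and the
last vertex -/
def catP {V : Type u} {E : V → V → Prop} {P : Pat} (φ : Emb E P) : List ℕ → List V
  | [] => []
  | [k] => φ.π k
  | k :: k' :: l => φ.π k ++ φ.β (P.dst k) :: catP φ (k' :: l)

/-- A forbidden configuration: pattern `P`; the labels different from `0` and `lt` have exactly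
the extremal length, the label `lt` (if it is not `0`) has a smaller length. -/
structure Spec where
  P : Pat
  lt : ℕ

def Spec.Holds {V : Type u} (E : V → V → Prop) (m : ℕ → ℕ) (s : Spec) : Prop :=
  ∀ φ : Emb E s.P,
    (∀ k < s.P.m, s.P.lab k ≠ 0 → s.P.lab k ≠ s.lt → φ.len (s.P.lab k) = m (s.P.lab k)) →
    (s.lt ≠ 0 → φ.len s.lt < m s.lt) → False

/-- certificate of a topological embedding of a pattern in a pattern: images of the branch
vertices, and for every arc the list of the arcs of the path replacing it -/
structure PMap where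
  vm : List ℕ
  am : List (List ℕ)

/-- certificate for one landing place of the new ear -/
inductive Ent where
  | spec (j : ℕ) (c : PMap)
  | node (j : ℕ) (c : PMap)

/-- a position of the game: pattern, the vertex chosen, a cycle of the pattern avoiding it
(list of arcs), and a certificate for every landing place -/
structure Node where
  P : Pat
  v : ℕ
  cyc : List ℕ
  ents : List Ent

/-- nodup test for lists of natural numbers -/
def nodupB : List ℕ → Bool
  | [] => true
  | a :: l => !(l.elem a) && nodupB l

/-- `walkB P a b l`: the arcs `l` of `P` form a nonempty walk from `a` to `b` -/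
def walkB (P : Pat) (a b : ℕ) : List ℕ → Bool
  | [] => false
  | [k] => decide (k < P.m) && (P.src k == a) && (P.dst k == b)
  | k :: k' :: l => decide (k < P.m) && (P.src k == a) && walkB P (P.dst k) b (k' :: l)

/-- interior vertices of a walk given by its arcs -/
def inner (P : Pat) : List ℕ → List ℕ
  | [] => []
  | [_] => []
  | k :: k' :: l => P.dst k :: inner P (k' :: l)

/-- arcs of `Q` with their images, as a list of (source, target, label, image) -/
def zipped (Q : Pat) (c : PMap) : List ((ℕ × ℕ × ℕ) × List ℕ) := Q.arcs.zip c.am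

/-- number of image arcs of the arcs with label `l` -/
def cntQ (Q : Pat) (c : PMap) (l : ℕ) : ℕ :=
  (((zipped Q c).filter (fun x => x.1.2.2 == l)).map (fun x => x.2.length)).sum

/-- number of arcs of `P` with label `l` -/
def cntP (P : Pat) (l : ℕ) : ℕ := (P.arcs.filter (fun x => x.2.2 == l)).length

/-- Boolean check that `c` is a topological embedding of `Q` in `P`, compatible with labels -/
def okMap (Q P : Pat) (lt : ℕ) (c : PMap) : Bool :=
  (c.vm.length == Q.n) && (c.am.length == Q.m) &&
  c.vm.all (fun x => decide (x < P.n)) &&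
  (zipped Q c).all (fun x => walkB P (c.vm.getD x.1.1 0) (c.vm.getD x.1.2.1 0) x.2) &&
  (zipped Q c).all (fun x => (inner P x.2).all (fun y => decide (y < P.n))) &&
  nodupB (c.vm ++ (c.am.map (inner P)).flatten) &&
  nodupB c.am.flatten &&
  (zipped Q c).all (fun x => (x.1.2.2 == 0) || x.2.all (fun k => P.lab k == x.1.2.2)) &&
  Q.arcs.all (fun a => (a.2.2 == 0) ||
    (if a.2.2 == lt then decide (cntQ Q c a.2.2 < cntP P a.2.2)
      else cntQ Q c a.2.2 == cntP P a.2.2)) &&
  ((lt == 0) || Q.arcs.any (fun a => a.2.2 == lt)) &&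
  Q.arcs.all (fun a => decide (a.1 < Q.n) && decide (a.2.1 < Q.n))

/-- the arc number `k` is rerouted when the ear starts at `v` -/
def free (P : Pat) (v k : ℕ) : Bool := P.src k == v

/-- ear landing on the branch vertex `h` -/
def childV (P : Pat) (v h : ℕ) : Pat := ⟨P.n, P.arcs ++ [(v, h, 0)]⟩

/-- ear landing in the interior of the arc `k` -/
def childE (P : Pat) (v k : ℕ) : Pat :=
  ⟨P.n + 1, P.arcs.set k (P.src k, P.n, P.lab k) ++ [(P.n, P.dst k, P.lab k), (v, P.n, 0)]⟩

def children (P : Pat) (v : ℕ) : List Pat :=
  ((List.range P.n).filter (fun h => !(h == v) && !(P.arcs.elem (v, h, 0)))).map (childV P v) ++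
  ((List.range P.m).filter (fun k => !(free P v k))).map (childE P v)

/-- out-degree of `v` in the pattern -/
def outdeg (P : Pat) (v : ℕ) : ℕ := (P.arcs.filter (fun a => a.1 == v)).length

/-- the arcs leaving `v` have label `0` and distinct targets -/
def okOut (P : Pat) (v : ℕ) : Bool :=
  (P.arcs.filter (fun a => a.1 == v)).all (fun a => a.2.2 == 0) &&
  nodupB ((P.arcs.filter (fun a => a.1 == v)).map (fun a => a.2.1))

/-- `cyc` is a closed walk of `P` (nonempty list of arcs) that avoids `v`, with distinct
vertices -/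
def okCyc (P : Pat) (v : ℕ) (cyc : List ℕ) : Bool :=
  match cyc with
  | [] => false
  | k :: l => walkB P (P.src k) (P.src k) (k :: l) && nodupB (P.src k :: inner P (k :: l)) &&
      !((P.src k :: inner P (k :: l)).elem v)

def okEnt (specs : List Spec) (nodes : List Node) (i : ℕ) (C : Pat) : Ent → Bool
  | .spec j c => match specs[j]? with
      | none => false
      | some s => okMap s.P C s.lt c
  | .node j c => decide (j < i) && match nodes[j]? with
      | none => false
      | some nd => okMap nd.P C 0 c

def okEnts (specs : List Spec) (nodes : List Node) (i : ℕ) : List Pat → List Ent → Bool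
  | [], [] => true
  | C :: Cs, e :: es => okEnt specs nodes i C e && okEnts specs nodes i Cs es
  | _, _ => false

def okNode (specs : List Spec) (nodes : List Node) (i : ℕ) (nd : Node) : Bool :=
  decide (nd.v < nd.P.n) && decide (outdeg nd.P nd.v ≤ 2) && okOut nd.P nd.v &&
  okCyc nd.P nd.v nd.cyc &&
  nd.P.arcs.all (fun a => decide (a.1 < nd.P.n) && decide (a.2.1 < nd.P.n)) &&
  okEnts specs nodes i (children nd.P nd.v) nd.ents

def okAllAux (specs : List Spec) (nodes : List Node) : ℕ → List Node → Bool
  | _, [] => true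
  | i, nd :: l => okNode specs nodes i nd && okAllAux specs nodes (i + 1) l

/-- every position has a correct certificate; a position refers only to earlier positions -/
def okAll (specs : List Spec) (nodes : List Node) : Bool := okAllAux specs nodes 0 nodes

/-- the pattern of the bioriented path on four vertices: cycle - digon - cycle -/
def patP4 : Pat := ⟨2, [(0, 0, 0), (0, 1, 0), (1, 0, 0), (1, 1, 0)]⟩

/-- `a :: l` is a directed cycle of `E` -/
def Cyc {V : Type u} (E : V → V → Prop) (a : V) (l : List V) : Prop :=
  Seg E a l a ∧ (a :: l).Nodup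

/-- no set of at most `d` vertices separates a vertex from a set containing a cycle -/
def NoSep {V : Type u} (E : V → V → Prop) (d : ℕ) : Prop :=
  ∀ (v : V) (Tg Y : Finset V) (a : V) (l : List V), Cyc E a l → (∀ x ∈ a :: l, x ∈ Tg) →
    v ∉ Tg → v ∉ Y → Y.card ≤ d →
    ∃ (q : List V) (t : V), Seg E v q t ∧ t ∈ Tg ∧ t ∉ Y ∧ ∀ x ∈ q, x ∉ Y

/-- reachability inside a set -/
def ReachIn {V : Type u} (E : V → V → Prop) (S : Set V) (a b : V) : Prop :=
  Relation.ReflTransGen (fun x y => x ∈ S ∧ y ∈ S ∧ E x y) a b

/-- `S` induces a strongly connected digraph -/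
def StrongOn {V : Type u} (E : V → V → Prop) (S : Set V) : Prop :=
  ∀ a ∈ S, ∀ b ∈ S, ReachIn E S a b

/-- `x` has two out-neighbours in `S` -/
def Out2 {V : Type u} (E : V → V → Prop) (S : Set V) (x : V) : Prop :=
  ∃ y ∈ S, ∃ z ∈ S, y ≠ z ∧ E x y ∧ E x z

/-- `l` is a directed path from `A` to `B` (possibly with one vertex) -/
def IsAB {W : Type u} (E : W → W → Prop) (A B : Set W) (l : List W) : Prop :=
  l ≠ [] ∧ l.Nodup ∧ l.IsChain E ∧ (∀ a ∈ l.head?, a ∈ A) ∧ (∀ b ∈ l.getLast?, b ∈ B)

end BiP4
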