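import Pool.Agent.Work.MP_d76268_co.Stmts

/-!
# MP_d76268_co: deletion of a digon and of a source
-/

set_option autoImplicit false

namespace BiP4

namespace DigSrc

theorem cyc_map {V V' : Type} {E : V → V → Prop} {E' : V' → V' → Prop} (f : V' → V)
    (hf : Function.Injective f) (hE : ∀ x y, E' x y → E (f x) (f y)) {a : V'} {l : List V'}
    (h : Cyc E' a l) : Cyc E (f a) (l.map f) := by
  refine ⟨?_, ?_⟩
  · have h1 : List.IsChain E ((a :: (l ++ [a])).map f) := by
      rw [List.isChain_map]
      exact h.1.imp hE
    simpa [Seg] using h1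
  · have h2 := h.2.map hf
    simpa using h2

theorem disj_map {V V' : Type} (f : V' → V) (hf : Function.Injective f) {l1 l2 : List V'}
    (h : List.Disjoint l1 l2) : List.Disjoint (l1.map f) (l2.map f) := by
  intro x h1 h2
  rw [List.mem_map] at h1 h2
  obtain ⟨y, hy, rfl⟩ := h1
  obtain ⟨z, hz, hzy⟩ := h2
  rw [hf hzy] at hz
  exact h hy hz

end DigSrc

open DigSrc

/-- Deletion of a source. -/
theorem source : StmtSource := by
  intro V _ _ E r k u hr hl hout hsrc
  have hne : Nonempty {x : V // x ≠ u} := by
    obtain ⟨F, hF, hFE⟩ := hout u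
    obtain ⟨y, hy⟩ : F.Nonempty := Finset.card_pos.mp (by omega)
    exact ⟨⟨y, fun h => hl u (h ▸ hFE y hy)⟩⟩
  refine ⟨{x : V // x ≠ u}, inferInstance, inferInstance, fun x y => E x.1 y.1, hne, ?_,
    fun x => hl x.1, ?_, ?_⟩
  · exact Fintype.card_subtype_lt (x := u) (by simp)
  · intro x
    obtain ⟨F, hF, hFE⟩ := hout x.1
    refine ⟨F.subtype (fun y => y ≠ u), ?_, ?_⟩
    · rw [Finset.card_subtype, Finset.filter_true_of_mem]
      · exact hF
      · intro y hy h
        exact hsrc x.1 (h ▸ hFE y hy)
    · intro y hy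
      exact hFE y.1 (Finset.mem_subtype.mp hy)
  · rintro ⟨a, l, hc, hd⟩
    refine ⟨fun i => (a i).1, fun i => (l i).map Subtype.val, fun i => ?_, fun i j hij => ?_⟩
    · exact cyc_map Subtype.val Subtype.val_injective (fun _ _ h => h) (hc i)
    · have := disj_map Subtype.val Subtype.val_injective (hd i j hij)
      simpa using this

/-- Deletion of a digon. -/
theorem digon : StmtDigon := by
  intro V _ _ E r k u v hr hl hout huv hvu
  have hne' : u ≠ v := fun h => hl u (by rw [← h] at huv; exact huv)
  have hcard : ∀ F : Finset V, r + 2 ≤ F.card →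
      r ≤ (F.filter (fun y => y ≠ u ∧ y ≠ v)).card := by
    intro F hF
    have h1 : (F.filter (fun y => y ≠ u ∧ y ≠ v)) = (F.erase u).erase v := by
      ext y
      simp only [Finset.mem_filter, Finset.mem_erase]
      tauto
    rw [h1]
    have h2 := Finset.pred_card_le_card_erase (s := F) (a := u)
    have h3 := Finset.pred_card_le_card_erase (s := F.erase u) (a := v)
    omega
  have hne : Nonempty {x : V // x ≠ u ∧ x ≠ v} := by
    obtain ⟨F, hF, hFE⟩ := hout u
    have h1 := hcard F hF
    obtain ⟨y, hy⟩ : (F.filter (fun y => y ≠ u ∧ y ≠ v)).Nonempty :=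
      Finset.card_pos.mp (by omega)
    exact ⟨⟨y, (Finset.mem_filter.mp hy).2⟩⟩
  refine ⟨{x : V // x ≠ u ∧ x ≠ v}, inferInstance, inferInstance, fun x y => E x.1 y.1, hne, ?_,
    fun x => hl x.1, ?_, ?_⟩
  · exact Fintype.card_subtype_lt (x := u) (by simp)
  · intro x
    obtain ⟨F, hF, hFE⟩ := hout x.1
    refine ⟨F.subtype (fun y => y ≠ u ∧ y ≠ v), ?_, ?_⟩
    · rw [Finset.card_subtype]
      exact hcard F hF
    · intro y hy
      exact hFE y.1 (Finset.mem_subtype.mp hy)
  · rintro ⟨a, l, hc, hd⟩
    have hdig : Cyc E u [v] := by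
      refine ⟨?_, ?_⟩
      · show List.IsChain E [u, v, u]
        simp [huv, hvu]
      · simp [hne']
    have hd0 : ∀ i, List.Disjoint [u, v] ((a i).1 :: (l i).map Subtype.val) := by
      intro i x h1 h2
      have h3 : x ∈ ((a i :: l i).map Subtype.val) := by simpa using h2
      rw [List.mem_map] at h3
      obtain ⟨y, -, rfl⟩ := h3
      rcases List.mem_pair.mp h1 with h | h
      · exact y.2.1 h
      · exact y.2.2 h
    refine ⟨Fin.cons u (fun i => (a i).1), Fin.cons [v] (fun i => (l i).map Subtype.val),
      fun i => ?_, fun i j hij => ?_⟩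
    · refine Fin.cases ?_ (fun i => ?_) i
      · exact hdig
      · exact cyc_map Subtype.val Subtype.val_injective (fun _ _ h => h) (hc i)
    · revert hij
      refine Fin.cases ?_ (fun i => ?_) i
      · refine Fin.cases ?_ (fun j => ?_) j
        · intro h
          exact absurd rfl h
        · intro _
          exact hd0 j
      · refine Fin.cases ?_ (fun j => ?_) j
        · intro _
          exact (hd0 i).symm
        · intro h
          have := disj_map Subtype.val Subtype.val_injective (hd i j fun e => h (by rw [e]))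
          simpa using this

end BiP4
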