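import Pool.Agent.Work.MP_d76268_co.Stmts
import Pool.Agent.Work.MP_d76268_co.Bd.B01

/-!
# EXIT: exit path to an isolated loop
-/

namespace BiP4

namespace Exit

variable {V : Type} {E : V → V → Prop}

/-- Arcs of a pattern with the interior vertices of their paths. -/
abbrev LA (V : Type) := List ((ℕ × ℕ × ℕ) × List V)

/-- Compatibility of two paths. -/
def R (x y : (ℕ × ℕ × ℕ) × List V) : Prop :=
  List.Disjoint x.2 y.2 ∧ (x.1.1 = y.1.1 → x.1.2.1 = y.1.2.1 → x.2 ≠ [] ∨ y.2 ≠ [])

theorem R.symm {x y : (ℕ × ℕ × ℕ) × List V} (h : R x y) : R y x :=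
  ⟨h.1.symm, fun a b => (h.2 a.symm b.symm).symm⟩

/-- Embedding given by a list. -/
structure LEmb (E : V → V → Prop) (β : ℕ → V) (n : ℕ) (L : LA V) : Prop where
  inj : ∀ i < n, ∀ j < n, β i = β j → i = j
  each : ∀ x ∈ L, Seg E (β x.1.1) x.2 (β x.1.2.1) ∧ x.2.Nodup ∧ ∀ i < n, β i ∉ x.2
  pw : L.Pairwise R

/-- Length of the paths with label `l`. -/
def LL (L : LA V) (l : ℕ) : ℕ := (L.map (fun x => if x.1.2.2 = l then x.2.length + 1 else 0)).sum

theorem sum_getD {α : Type} (g : α → ℕ) (d : α) (L : List α) :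
    ∑ k ∈ Finset.range L.length, g (L.getD k d) = (L.map g).sum := by
  induction L with
  | nil => simp
  | cons a L ih =>
    rw [List.length_cons, Finset.sum_range_succ']
    simp only [List.getD_cons_succ, List.getD_cons_zero, List.map_cons, List.sum_cons, ih]
    ring

theorem len_eq {P : Pat} (φ : Emb E P) (L : LA V) (hL : L.map Prod.fst = P.arcs)
    (hπ : ∀ k < P.m, φ.π k = (L.getD k ((0, 0, 0), [])).2) (l : ℕ) : φ.len l = LL L l := by
  have hm : P.m = L.length := by rw [Pat.m, ← hL, List.length_map]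
  unfold Emb.len LL
  rw [Finset.sum_filter, hm, ← sum_getD _ (((0, 0, 0), []) : (ℕ × ℕ × ℕ) × List V)]
  refine Finset.sum_congr rfl fun k hk => ?_
  have hk' : k < P.m := by rw [hm]; exact Finset.mem_range.1 hk
  have hkL : k < L.length := Finset.mem_range.1 hk
  have e1 : P.lab k = (L.getD k ((0, 0, 0), [])).1.2.2 := by
    unfold Pat.lab
    rw [← hL, List.getD_eq_getElem _ _ (by simpa using hkL), List.getD_eq_getElem _ _ hkL,
      List.getElem_map]
  rw [hπ k hk', e1]

theorem toEmb {β : ℕ → V} {n : ℕ} {L : LA V} (h : LEmb E β n L) :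
    ∃ ψ : Emb E ⟨n, L.map Prod.fst⟩, ∀ l, ψ.len l = LL L l := by
  have hm : (⟨n, L.map Prod.fst⟩ : Pat).m = L.length := by simp [Pat.m]
  have hg : ∀ k < L.length, L.getD k (((0, 0, 0), []) : (ℕ × ℕ × ℕ) × List V) ∈ L := by
    intro k hk
    rw [List.getD_eq_getElem _ _ hk]
    exact List.getElem_mem hk
  have hs : ∀ k < L.length, (⟨n, L.map Prod.fst⟩ : Pat).src k =
      (L.getD k (((0, 0, 0), []) : (ℕ × ℕ × ℕ) × List V)).1.1 ∧
      (⟨n, L.map Prod.fst⟩ : Pat).dst k =
      (L.getD k (((0, 0, 0), []) : (ℕ × ℕ × ℕ) × List V)).1.2.1 := by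
    intro k hk
    unfold Pat.src Pat.dst
    simp only
    rw [List.getD_eq_getElem _ _ (by simpa using hk), List.getD_eq_getElem _ _ hk,
      List.getElem_map]
    exact ⟨rfl, rfl⟩
  have hpw : ∀ k < L.length, ∀ k' < L.length, k ≠ k' →
      R (L.getD k (((0, 0, 0), []) : (ℕ × ℕ × ℕ) × List V)) (L.getD k' ((0, 0, 0), [])) := by
    intro k hk k' hk' hne
    rw [List.getD_eq_getElem _ _ hk, List.getD_eq_getElem _ _ hk']
    rcases lt_or_gt_of_ne hne with h1 | h1
    · exact (List.pairwise_iff_getElem.1 h.pw) k k' hk hk' h1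
    · exact ((List.pairwise_iff_getElem.1 h.pw) k' k hk' hk h1).symm
  let ψ : Emb E ⟨n, L.map Prod.fst⟩ :=
    { β := β
      π := fun k => (L.getD k ((0, 0, 0), [])).2
      inj := h.inj
      seg := by
        intro k hk
        rw [hm] at hk
        rw [(hs k hk).1, (hs k hk).2]
        exact (h.each _ (hg k hk)).1
      nodup := by
        intro k hk
        rw [hm] at hk
        exact (h.each _ (hg k hk)).2.1
      disj := by
        intro k hk k' hk' hne
        rw [hm] at hk hk'
        exact (hpw k hk k' hk' hne).1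
      avoid := by
        intro k hk
        rw [hm] at hk
        exact (h.each _ (hg k hk)).2.2
      npar := by
        intro k hk k' hk' hne h1 h2
        rw [hm] at hk hk'
        rw [(hs k hk).1, (hs k' hk').1] at h1
        rw [(hs k hk).2, (hs k' hk').2] at h2
        exact (hpw k hk k' hk' hne).2 h1 h2 }
  exact ⟨ψ, fun l => len_eq ψ L rfl (fun k _ => rfl) l⟩

theorem ofEmb {P : Pat} (φ : Emb E P) : ∃ L : LA V, L.map Prod.fst = P.arcs ∧
    LEmb E φ.β P.n L ∧ ∀ l, φ.len l = LL L l := by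
  set L : LA V := (List.range P.m).map (fun k => (P.arcs.getD k (0, 0, 0), φ.π k)) with hL
  have hlen : L.length = P.m := by simp [hL]
  have hLk : ∀ k (hk : k < L.length), L[k] = (P.arcs.getD k (0, 0, 0), φ.π k) := by
    intro k hk
    simp [hL]
  have h1 : L.map Prod.fst = P.arcs := by
    apply List.ext_getElem
    · rw [List.length_map, hlen]
      rfl
    · intro k hk hk'
      rw [List.getElem_map, hLk k (by simpa using hk), List.getD_eq_getElem _ _ hk']
  refine ⟨L, h1, ⟨φ.inj, ?_, ?_⟩, fun l => len_eq φ L h1 ?_ l⟩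
  · intro x hx
    rw [hL, List.mem_map] at hx
    obtain ⟨k, hk, rfl⟩ := hx
    have hk' : k < P.m := List.mem_range.1 hk
    exact ⟨φ.seg k hk', φ.nodup k hk', φ.avoid k hk'⟩
  · rw [List.pairwise_iff_getElem]
    intro i j hi hj hij
    rw [hLk i hi, hLk j hj]
    have hi' : i < P.m := by rw [← hlen]; exact hi
    have hj' : j < P.m := by rw [← hlen]; exact hj
    exact ⟨φ.disj i hi' j hj' hij.ne, fun a b => φ.npar i hi' j hj' hij.ne a b⟩
  · intro k hk
    have hk' : k < L.length := by rw [hlen]; exact hk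
    rw [List.getD_eq_getElem _ _ hk', hLk k hk']

theorem LL_append (L L' : LA V) (l : ℕ) : LL (L ++ L') l = LL L l + LL L' l := by
  simp [LL]

theorem LL_cons (x : (ℕ × ℕ × ℕ) × List V) (L : LA V) (l : ℕ) :
    LL (x :: L) l = (if x.1.2.2 = l then x.2.length + 1 else 0) + LL L l := by
  simp [LL]

theorem LL_nil (l : ℕ) : LL ([] : LA V) l = 0 := by
  simp [LL]

theorem toEmb' {β : ℕ → V} {n : ℕ} {L : LA V} {C : Pat} (h : LEmb E β n L)
    (hC : (⟨n, L.map Prod.fst⟩ : Pat) = C) : ∃ ψ : Emb E C, ∀ l, ψ.len l = LL L l := by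
  subst hC
  exact toEmb h

/-- The path to the loop. -/
theorem path {β : ℕ → V} {N : ℕ} {L0 : LA V} {last : List V} (hS : StrongOn E Set.univ)
    (hN : 1 ≤ N) (h : LEmb E β (N + 1) (L0 ++ [((N, N, 0), last)])) :
    ∃ (c : V) (l : List V) (h : V) (lp : List V), Seg E c l h ∧ Seg E h lp h ∧ l.Nodup ∧
      lp.Nodup ∧ c ∉ l ∧ h ∉ l ∧ h ∉ lp ∧ ((∃ i < N, c = β i) ∨ ∃ y ∈ L0, c ∈ y.2) ∧
      (∀ i < N, β i ∉ l ∧ β i ∉ lp ∧ β i ≠ h) ∧
      (∀ y ∈ L0, List.Disjoint y.2 l ∧ List.Disjoint y.2 lp ∧ h ∉ y.2) ∧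
      List.Disjoint lp l := by
  set X : V → Prop := fun v => (∃ i < N, v = β i) ∨ ∃ y ∈ L0, v ∈ y.2 with hX
  set Y : V → Prop := fun v => v ∈ β N :: last with hY
  have hz := h.each ((N, N, 0), last) (by simp)
  have hcyc : Cyc E (β N) last := ⟨hz.1, List.nodup_cons.2 ⟨hz.2.2 N (by omega), hz.2.1⟩⟩
  have hXY : ∀ v, X v → ¬ Y v := by
    intro v hv hv'
    rcases hv with ⟨i, hi, rfl⟩ | ⟨y, hy, hvy⟩
    · rcases List.mem_cons.1 hv' with h1 | h1
      · have := h.inj i (by omega) N (by omega) h1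
        omega
      · exact hz.2.2 i (by omega) h1
    · rcases List.mem_cons.1 hv' with h1 | h1
      · rw [h1] at hvy
        exact (h.each y (by simp [hy])).2.2 N (by omega) hvy
      · have := (List.pairwise_append.1 h.pw).2.2 y hy ((N, N, 0), last) (by simp)
        exact this.1 hvy h1
  obtain ⟨l, hl⟩ : ∃ l, Seg E (β 0) l (β N) := by
    rcases (hS (β 0) (Set.mem_univ _) (β N) (Set.mem_univ _)).seg with h1 | ⟨_, _, l, hl, _⟩
    · have := h.inj 0 (by omega) N (by omega) h1
      omega
    · exact ⟨l, hl⟩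
  obtain ⟨c, l1, hs1, hXc, hl1, _, _, _⟩ := hl.last X (Or.inl ⟨0, by omega, rfl⟩)
  obtain ⟨l2, e, hs2, hYe, hl2, hsub2, _, _⟩ := hs1.first Y (by simp [hY])
  obtain ⟨l3, hs3, hsub3, hnd3, hc3, he3⟩ := hs2.simple
  obtain ⟨lp, hlp, hperm⟩ := hcyc.rotate hYe
  have hlpY : ∀ v ∈ lp, Y v := fun v hv => hperm.mem_iff.1 (List.mem_cons_of_mem _ hv)
  have h3X : ∀ v ∈ l3, ¬ X v := fun v hv => hl1 v (hsub2 v (hsub3 v hv))
  have h3Y : ∀ v ∈ l3, ¬ Y v := fun v hv => hl2 v (hsub3 v hv)
  have hβX : ∀ i < N, X (β i) := fun i hi => Or.inl ⟨i, hi, rfl⟩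
  have hyX : ∀ y ∈ L0, ∀ v ∈ y.2, X v := fun y hy v hv => Or.inr ⟨y, hy, hv⟩
  refine ⟨c, l3, e, lp, hs3, hlp.1, hnd3, (List.nodup_cons.1 hlp.2).2, hc3, he3,
    (List.nodup_cons.1 hlp.2).1, hXc, ?_, ?_, ?_⟩
  · intro i hi
    refine ⟨fun h1 => h3X _ h1 (hβX i hi), fun h1 => hXY _ (hβX i hi) (hlpY _ h1), ?_⟩
    intro h1
    exact hXY _ (hβX i hi) (by rw [h1]; exact hYe)
  · intro y hy
    refine ⟨fun v hv hv' => h3X v hv' (hyX y hy v hv),
      fun v hv hv' => hXY v (hyX y hy v hv) (hlpY v hv'),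
      fun h1 => hXY _ (hyX y hy _ h1) hYe⟩
  · intro v hv hv'
    exact h3Y v hv' (hlpY v hv)

end Exit

open Exit in
theorem exit : StmtExit := by
  intro V _ _ E hS P A hn hA hlt φ
  obtain ⟨n, arcs⟩ := P
  simp only at hn hA hlt
  obtain ⟨N, rfl⟩ : ∃ N, n = N + 1 := ⟨n - 1, by omega⟩
  have hN : 1 ≤ N := by omega
  simp only [Nat.add_sub_cancel] at hA hlt
  obtain ⟨L, hLa, hLE, hlen⟩ := ofEmb φ
  simp only at hLa hLE
  rw [hA] at hLa
  obtain ⟨L0, Lz, rfl, hL0, hLz⟩ := List.map_eq_append_iff.1 hLa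
  obtain ⟨z, rfl, hz⟩ : ∃ z, Lz = [z] ∧ z.1 = (N, N, 0) := by
    obtain ⟨z, Lz', rfl, hz, hz'⟩ := List.map_eq_cons_iff.1 hLz
    rw [List.map_eq_nil_iff] at hz'
    exact ⟨z, by rw [hz'], hz⟩
  obtain ⟨z1, last⟩ := z
  simp only at hz
  subst hz
  have hlt0 : ∀ x ∈ L0, x.1.1 < N ∧ x.1.2.1 < N ∧ x.1.2.2 ≠ 3 := by
    intro x hx
    exact hlt x.1 (by rw [← hL0]; exact List.mem_map_of_mem hx)
  obtain ⟨c, l, h, lp, hsl, hslp, hnl, hnlp, hcl, hhl, hhlp, hXc, hβ, hy, hdl⟩ :=
    path hS hN hLE
  rcases hXc with ⟨i, hi, rfl⟩ | ⟨y, hyL, hcy⟩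
  · -- exit from a branch vertex
    set β' : ℕ → V := Function.update φ.β N h with hβ'
    have hb : ∀ j < N, β' j = φ.β j := fun j hj => by
      rw [hβ', Function.update_of_ne (by omega)]
    have hbN : β' N = h := by rw [hβ', Function.update_self]
    have hLE' : LEmb E β' (N + 1) ((L0 ++ [((N, N, 0), lp)]) ++ [((i, N, 3), l)]) := by
      refine ⟨?_, ?_, ?_⟩
      · intro a ha b hb2 hab
        rcases Nat.lt_succ_iff_lt_or_eq.1 ha with ha | rfl <;>
          rcases Nat.lt_succ_iff_lt_or_eq.1 hb2 with hb3 | rfl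
        · rw [hb a ha, hb b hb3] at hab
          exact hLE.inj a (by omega) b (by omega) hab
        · rw [hb a ha, hbN] at hab
          exact absurd hab (hβ a ha).2.2
        · rw [hb b hb3, hbN] at hab
          exact absurd hab.symm (hβ b hb3).2.2
        · rfl
      · intro x hx
        rw [List.mem_append, List.mem_append, List.mem_singleton, List.mem_singleton] at hx
        rcases hx with (hx | rfl) | rfl
        · have hx' := hLE.each x (by simp [hx])
          rw [hb _ (hlt0 x hx).1, hb _ (hlt0 x hx).2.1]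
          refine ⟨hx'.1, hx'.2.1, ?_⟩
          intro j hj
          rcases Nat.lt_succ_iff_lt_or_eq.1 hj with hj | rfl
          · rw [hb j hj]
            exact hx'.2.2 j (by omega)
          · rw [hbN]
            exact (hy x hx).2.2
        · simp only
          rw [hbN]
          refine ⟨hslp, hnlp, ?_⟩
          intro j hj
          rcases Nat.lt_succ_iff_lt_or_eq.1 hj with hj | rfl
          · rw [hb j hj]
            exact (hβ j hj).2.1
          · rw [hbN]
            exact hhlp
        · simp only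
          rw [hbN, hb i hi]
          refine ⟨hsl, hnl, ?_⟩
          intro j hj
          rcases Nat.lt_succ_iff_lt_or_eq.1 hj with hj | rfl
          · rw [hb j hj]
            exact (hβ j hj).1
          · rw [hbN]
            exact hhl
      · rw [List.pairwise_append, List.pairwise_append]
        refine ⟨⟨(List.pairwise_append.1 hLE.pw).1, by simp, ?_⟩, by simp, ?_⟩
        · intro x hx x' hx'
          rw [List.mem_singleton] at hx'
          subst hx'
          exact ⟨(hy x hx).2.1, fun h1 => absurd h1 (by have := (hlt0 x hx).1; simp only; omega)⟩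
        · intro x hx x' hx'
          rw [List.mem_singleton] at hx'
          subst hx'
          rw [List.mem_append, List.mem_singleton] at hx
          rcases hx with hx | rfl
          · exact ⟨(hy x hx).1, fun _ h1 =>
              absurd h1 (by have := (hlt0 x hx).2.1; simp only; omega)⟩
          · exact ⟨hdl, fun h1 => absurd h1 (by simp only; omega)⟩
    have hC : (⟨N + 1, ((L0 ++ [((N, N, 0), lp)]) ++ [((i, N, 3), l)]).map Prod.fst⟩ : Pat) =
        exitV ⟨N + 1, arcs⟩ i := by
      unfold exitV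
      simp [hL0, hA]
    obtain ⟨ψ, hψ⟩ := toEmb' hLE' hC
    refine ⟨_, ?_, ψ, ?_⟩
    · unfold exits
      rw [List.mem_append]
      exact Or.inl (List.mem_map_of_mem (List.mem_range.2 (by simpa using hi)))
    · intro k hk0 hk3
      rw [hψ, hlen]
      simp only [LL_append, LL_cons, LL_nil]
      rw [if_neg (Ne.symm hk0), if_neg (Ne.symm hk3), if_neg (Ne.symm hk0)]
  · -- exit from the interior of a path
    obtain ⟨a, py⟩ := y
    simp only at hcy
    obtain ⟨p, s, rfl⟩ := List.append_of_mem hcy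
    obtain ⟨L1, L2, rfl⟩ := List.append_of_mem hyL
    have hy0 := hLE.each (a, p ++ c :: s) (by simp)
    have hya := hlt0 (a, p ++ c :: s) (by simp)
    simp only at hy0 hya
    have hyy := hy (a, p ++ c :: s) (by simp)
    simp only at hyy
    obtain ⟨hyseg, hynd, hyβ⟩ := hy0
    rw [seg_append] at hyseg
    have hpw0 : (L1 ++ (a, p ++ c :: s) :: L2).Pairwise R := (List.pairwise_append.1 hLE.pw).1
    have hperm0 : (L1 ++ (a, p ++ c :: s) :: L2).Perm ((a, p ++ c :: s) :: (L1 ++ L2)) :=
      List.perm_middle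
    have hpw1 := (hperm0.pairwise_iff (fun {x y} h => R.symm h)).1 hpw0
    rw [List.pairwise_cons] at hpw1
    obtain ⟨hRy, hpw12⟩ := hpw1
    have hmem : ∀ x ∈ L1 ++ L2, x ∈ L1 ++ (a, p ++ c :: s) :: L2 := by
      intro x hx
      exact hperm0.mem_iff.2 (List.mem_cons_of_mem _ hx)
    set β' : ℕ → V := Function.update (Function.update φ.β N h) (N + 1) c with hβ'
    have hb : ∀ j < N, β' j = φ.β j := fun j hj => by
      rw [hβ', Function.update_of_ne (by omega), Function.update_of_ne (by omega)]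
    have hbN : β' N = h := by rw [hβ', Function.update_of_ne (by omega), Function.update_self]
    have hbN1 : β' (N + 1) = c := by rw [hβ', Function.update_self]
    have hch : c ≠ h := by
      rintro rfl
      exact hyy.2.2 (by simp)
    have hcβ : ∀ j < N, c ≠ φ.β j := by
      rintro j hj rfl
      exact hyβ j (by omega) (by simp)
    have hclp : c ∉ lp := fun h1 => hyy.2.1 (show c ∈ p ++ c :: s by simp) h1
    have hsplit : ∀ j, j < N + 1 + 1 → j < N ∨ j = N ∨ j = N + 1 := by omega
    have havoid : ∀ q : List V, (∀ j < N, φ.β j ∉ q) → h ∉ q → c ∉ q →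
        ∀ j < N + 1 + 1, β' j ∉ q := by
      intro q h1 h2 h3 j hj
      rcases hsplit j hj with hj | rfl | rfl
      · rw [hb j hj]
        exact h1 j hj
      · rw [hbN]
        exact h2
      · rw [hbN1]
        exact h3
    have hnd' : p.Nodup ∧ s.Nodup ∧ c ∉ p ∧ c ∉ s ∧ List.Disjoint p s := by
      rw [List.nodup_append] at hynd
      obtain ⟨h1, h2, h3⟩ := hynd
      rw [List.nodup_cons] at h2
      refine ⟨h1, h2.2, fun h4 => h3 c h4 c (by simp) rfl, h2.1, ?_⟩
      intro v hv hv'
      exact h3 v hv v (by simp [hv']) rfl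
    obtain ⟨hndp, hnds, hcp, hcs, hdps⟩ := hnd'
    have hsubp : ∀ v ∈ p, v ∈ p ++ c :: s := fun v hv => by simp [hv]
    have hsubs : ∀ v ∈ s, v ∈ p ++ c :: s := fun v hv => by simp [hv]
    have hLE1 : LEmb E β' (N + 1 + 1) (((N + 1, N, 3), l) :: ((N + 1, a.2.1, a.2.2), s) ::
        ((N, N, 0), lp) :: ((a.1, N + 1, a.2.2), p) :: (L1 ++ L2)) := by
      refine ⟨?_, ?_, ?_⟩
      · intro i hi j hj hij
        rcases hsplit i hi with hi | rfl | rfl <;> rcases hsplit j hj with hj | rfl | rfl
        · rw [hb i hi, hb j hj] at hij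
          exact hLE.inj i (by omega) j (by omega) hij
        · rw [hb i hi, hbN] at hij
          exact absurd hij (hβ i hi).2.2
        · rw [hb i hi, hbN1] at hij
          exact absurd hij.symm (hcβ i hi)
        · rw [hb j hj, hbN] at hij
          exact absurd hij.symm (hβ j hj).2.2
        · rfl
        · rw [hbN, hbN1] at hij
          exact absurd hij.symm hch
        · rw [hb j hj, hbN1] at hij
          exact absurd hij (hcβ j hj)
        · rw [hbN, hbN1] at hij
          exact absurd hij hch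
        · rfl
      · intro x hx
        simp only [List.mem_cons] at hx
        rcases hx with rfl | rfl | rfl | rfl | hx
        · simp only
          rw [hbN, hbN1]
          exact ⟨hsl, hnl, havoid _ (fun j hj => (hβ j hj).1) hhl hcl⟩
        · simp only
          rw [hbN1, hb _ hya.2.1]
          exact ⟨hyseg.2, hnds, havoid _ (fun j hj h1 => hyβ j (by omega) (hsubs _ h1))
            (fun h1 => hyy.2.2 (hsubs _ h1)) hcs⟩
        · simp only
          rw [hbN]
          exact ⟨hslp, hnlp, havoid _ (fun j hj => (hβ j hj).2.1) hhlp hclp⟩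
        · simp only
          rw [hbN1, hb _ hya.1]
          exact ⟨hyseg.1, hndp, havoid _ (fun j hj h1 => hyβ j (by omega) (hsubp _ h1))
            (fun h1 => hyy.2.2 (hsubp _ h1)) hcp⟩
        · have hx0 := hmem x hx
          have hx' := hLE.each x (List.mem_append_left _ hx0)
          rw [hb _ (hlt0 x hx0).1, hb _ (hlt0 x hx0).2.1]
          exact ⟨hx'.1, hx'.2.1, havoid _ (fun j hj => hx'.2.2 j (by omega)) (hy x hx0).2.2
            (fun h1 => (hRy x hx).1 (show c ∈ p ++ c :: s by simp) h1)⟩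
      · rw [List.pairwise_cons, List.pairwise_cons, List.pairwise_cons, List.pairwise_cons]
        refine ⟨?_, ?_, ?_, ?_, hpw12⟩
        · intro x hx
          simp only [List.mem_cons] at hx
          rcases hx with rfl | rfl | rfl | hx
          · exact ⟨fun v hv hv' => hyy.1 (hsubs v hv') hv,
              fun _ h1 => absurd h1 (by simp only; omega)⟩
          · exact ⟨hdl.symm, fun h1 => absurd h1 (by simp only; omega)⟩
          · exact ⟨fun v hv hv' => hyy.1 (hsubp v hv') hv,
              fun h1 => absurd h1 (by simp only; omega)⟩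
          · have hx0 := hmem x hx
            exact ⟨(hy x hx0).1.symm, fun h1 => absurd h1
              (by have := (hlt0 x hx0).1; simp only; omega)⟩
        · intro x hx
          simp only [List.mem_cons] at hx
          rcases hx with rfl | rfl | hx
          · exact ⟨fun v hv hv' => hyy.2.1 (hsubs v hv) hv',
              fun h1 => absurd h1 (by simp only; omega)⟩
          · exact ⟨hdps.symm, fun h1 => absurd h1 (by simp only; omega)⟩
          · have hx0 := hmem x hx
            exact ⟨fun v hv hv' => (hRy x hx).1 (hsubs v hv) hv', fun h1 => absurd h1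
              (by have := (hlt0 x hx0).1; simp only; omega)⟩
        · intro x hx
          simp only [List.mem_cons] at hx
          rcases hx with rfl | hx
          · exact ⟨fun v hv hv' => hyy.2.1 (hsubp v hv') hv,
              fun h1 => absurd h1 (by simp only; omega)⟩
          · have hx0 := hmem x hx
            exact ⟨(hy x hx0).2.1.symm, fun h1 => absurd h1
              (by have := (hlt0 x hx0).1; simp only; omega)⟩
        · intro x hx
          have hx0 := hmem x hx
          exact ⟨fun v hv hv' => (hRy x hx).1 (hsubp v hv) hv', fun _ h1 => absurd h1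
            (by have := (hlt0 x hx0).2.1; simp only; omega)⟩
    set L' : LA V := (L1 ++ ((a.1, N + 1, a.2.2), p) :: L2 ++ [((N, N, 0), lp)]) ++
      [((N + 1, a.2.1, a.2.2), s), ((N + 1, N, 3), l)] with hL'
    have hperm : (((N + 1, N, 3), l) :: ((N + 1, a.2.1, a.2.2), s) ::
        ((N, N, 0), lp) :: ((a.1, N + 1, a.2.2), p) :: (L1 ++ L2)).Perm L' := by
      rw [hL']
      apply Multiset.coe_eq_coe.1
      simp only [← Multiset.cons_coe, ← Multiset.coe_add, Multiset.coe_nil,
        ← Multiset.singleton_add]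
      abel
    have hLE2 : LEmb E β' (N + 1 + 1) L' := by
      refine ⟨hLE1.inj, fun x hx => hLE1.each x (hperm.mem_iff.2 hx), ?_⟩
      exact (hperm.pairwise_iff (fun {x y} h => R.symm h)).1 hLE1.pw
    have hC : (⟨N + 1 + 1, L'.map Prod.fst⟩ : Pat) = exitE ⟨N + 1, arcs⟩ L1.length := by
      unfold exitE Pat.src Pat.dst Pat.lab
      have ha : arcs = L1.map Prod.fst ++ a :: (L2.map Prod.fst ++ [(N, N, 0)]) := by
        rw [hA, ← hL0]
        simp
      have hlen1 : L1.length = (L1.map (Prod.fst : (ℕ × ℕ × ℕ) × List V → ℕ × ℕ × ℕ)).length := by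
        simp
      have hget : arcs.getD L1.length (0, 0, 0) = a := by
        rw [ha, hlen1]
        simp
      simp only
      rw [hget, ha, hlen1]
      simp [hL']
    obtain ⟨ψ, hψ⟩ := toEmb' hLE2 hC
    refine ⟨_, ?_, ψ, ?_⟩
    · unfold exits
      rw [List.mem_append]
      refine Or.inr (List.mem_map_of_mem (List.mem_range.2 ?_))
      unfold Pat.m
      simp only
      rw [hA, ← hL0]
      simp
    · intro k hk0 hk3
      rw [hψ, hlen, hL']
      simp only [LL_append, LL_cons, LL_nil]
      rw [if_neg (Ne.symm hk0), if_neg (Ne.symm hk3), if_neg (Ne.symm hk0)]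
      split_ifs
      · simp only [List.length_append, List.length_cons]
        ring
      · ring

end BiP4
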