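import Pool.Agent.Work.MP_d76268_co.Stmts

/-!
# MP_d76268_co: StmtL1 -> StmtL2
-/

namespace BiP4
namespace L2

variable {V : Type}

theorem seg_cons {E : V → V → Prop} {a c b : V} {t : List V} :
    Seg E a (c :: t) b ↔ E a c ∧ Seg E c t b := by
  unfold Seg
  rw [List.cons_append]
  exact List.isChain_cons_cons

theorem seg_nil {E : V → V → Prop} {a b : V} : Seg E a [] b ↔ E a b := by
  unfold Seg
  simp

theorem seg_left {E : V → V → Prop} {a b : V} {l : List V} :
    Seg E a l b ↔ (∀ y ∈ (l ++ [b]).head?, E a y) ∧ List.IsChain E (l ++ [b]) :=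
  List.isChain_cons

theorem seg_right {E : V → V → Prop} {a b : V} {l : List V} :
    Seg E a l b ↔ List.IsChain E (a :: l) ∧ ∀ x ∈ (a :: l).getLast?, E x b := by
  unfold Seg
  rw [← List.cons_append, List.isChain_append]
  simp

theorem seg_append {E : V → V → Prop} {a b : V} {p q : List V} :
    Seg E a (p ++ q) b ↔ List.IsChain E (a :: p) ∧ List.IsChain E (q ++ [b]) ∧
      ∀ x ∈ (a :: p).getLast?, ∀ y ∈ (q ++ [b]).head?, E x y := by
  unfold Seg
  rw [List.append_assoc, ← List.cons_append, List.isChain_append]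

theorem rtg_mono {r p : V → V → Prop} (h : ∀ a b, r a b → p a b) {x y : V}
    (hxy : Relation.ReflTransGen r x y) : Relation.ReflTransGen p x y := by
  induction hxy with
  | refl => exact Relation.ReflTransGen.refl
  | tail _ h2 ih => exact Relation.ReflTransGen.tail ih (h _ _ h2)

/-- make a walk simple -/
theorem seg_simple {E : V → V → Prop} {b : V} (l : List V) : ∀ a, Seg E a l b →
    ∃ l', Seg E a l' b ∧ l'.Nodup ∧ ∀ x ∈ l', x ∈ l := by
  classical
  induction l with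
  | nil => intro a h; exact ⟨[], h, List.nodup_nil, by simp⟩
  | cons c t ih =>
    intro a h
    obtain ⟨h1, h2⟩ := seg_cons.1 h
    obtain ⟨t', h3, h4, h5⟩ := ih c h2
    by_cases hc : c ∈ t'
    · obtain ⟨p, q, rfl⟩ := List.append_of_mem hc
      refine ⟨c :: q, ?_, ?_, ?_⟩
      · refine seg_cons.2 ⟨h1, ?_⟩
        have h6 := (seg_append.1 h3).2.1
        exact h6
      · exact (List.nodup_append.1 h4).2.1
      · intro x hx
        rcases List.mem_cons.1 hx with rfl | hx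
        · simp
        · exact List.mem_cons_of_mem _ (h5 x (by simp [hx]))
    · refine ⟨c :: t', seg_cons.2 ⟨h1, h3⟩, List.nodup_cons.2 ⟨hc, h4⟩, ?_⟩
      intro x hx
      rcases List.mem_cons.1 hx with rfl | hx
      · simp
      · exact List.mem_cons_of_mem _ (h5 x hx)

/-- chains inside `U` for two relations that agree there -/
theorem chain_mono {E H : V → V → Prop} {U : Set V} (hEH : ∀ x ∈ U, ∀ y ∈ U, H x y → E x y)
    {l : List V} (hl : ∀ x ∈ l, x ∈ U) (h : List.IsChain H l) : List.IsChain E l := by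
  induction l with
  | nil => exact List.isChain_nil
  | cons a t ih =>
    rw [List.isChain_cons] at h ⊢
    refine ⟨fun y hy => hEH a (hl a (by simp)) y (hl y ?_) (h.1 y hy), ih ?_ h.2⟩
    · exact List.mem_cons_of_mem _ (List.mem_of_mem_head? hy)
    · exact fun x hx => hl x (List.mem_cons_of_mem _ hx)

/-- every vertex of a cycle has an out-neighbour in the cycle -/
theorem cyc_out {E : V → V → Prop} {a : V} {l : List V} (h : Seg E a l a) :
    ∀ x ∈ a :: l, ∃ y ∈ a :: l, E x y := by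
  have key : ∀ (l : List V) (a b : V), Seg E a l b → ∀ x ∈ a :: l, ∃ y, (y ∈ l ∨ y = b) ∧ E x y := by
    intro l
    induction l with
    | nil =>
      intro a b h x hx
      rw [List.mem_singleton] at hx
      subst hx
      exact ⟨b, Or.inr rfl, seg_nil.1 h⟩
    | cons c t ih =>
      intro a b h x hx
      obtain ⟨h1, h2⟩ := seg_cons.1 h
      rcases List.mem_cons.1 hx with rfl | hx
      · exact ⟨c, Or.inl (by simp), h1⟩
      · obtain ⟨y, hy, hxy⟩ := ih c b h2 x hx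
        refine ⟨y, ?_, hxy⟩
        rcases hy with hy | hy
        · exact Or.inl (List.mem_cons_of_mem _ hy)
        · exact Or.inr hy
  intro x hx
  obtain ⟨y, hy, hxy⟩ := key l a a h x hx
  refine ⟨y, ?_, hxy⟩
  rcases hy with hy | rfl
  · exact List.mem_cons_of_mem _ hy
  · simp

/-- assembly of the embedding -/
theorem mkEmb {E : V → V → Prop} {b' b : V} {p0 p1 p2 p3 : List V}
    (hb : b' ≠ b) (h0 : Seg E b' p0 b') (h1 : Seg E b' p1 b) (h2 : Seg E b p2 b')
    (h3 : Seg E b p3 b)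
    (n0 : p0.Nodup) (n1 : p1.Nodup) (n2 : p2.Nodup) (n3 : p3.Nodup)
    (d01 : List.Disjoint p0 p1) (d02 : List.Disjoint p0 p2) (d03 : List.Disjoint p0 p3)
    (d12 : List.Disjoint p1 p2) (d13 : List.Disjoint p1 p3) (d23 : List.Disjoint p2 p3)
    (a0 : ∀ x ∈ p0, x ≠ b' ∧ x ≠ b) (a1 : ∀ x ∈ p1, x ≠ b' ∧ x ≠ b)
    (a2 : ∀ x ∈ p2, x ≠ b' ∧ x ≠ b) (a3 : ∀ x ∈ p3, x ≠ b' ∧ x ≠ b) :
    Nonempty (Emb E patP4) := by
  have hm : patP4.m = 4 := rfl
  have hn : patP4.n = 2 := rfl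
  refine ⟨{ β := fun i => if i = 0 then b' else b
            π := fun k => if k = 0 then p0 else if k = 1 then p1 else if k = 2 then p2 else p3
            inj := ?_, seg := ?_, nodup := ?_, disj := ?_, avoid := ?_, npar := ?_ }⟩
  · intro i hi j hj hij
    rw [hn] at hi hj
    interval_cases i <;> interval_cases j <;> simp_all
  · intro k hk
    rw [hm] at hk
    interval_cases k <;> simp [Pat.src, Pat.dst, patP4, h0, h1, h2, h3]
  · intro k hk
    rw [hm] at hk
    interval_cases k <;> simp [n0, n1, n2, n3]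
  · intro k hk k' hk' hkk
    rw [hm] at hk hk'
    interval_cases k <;> interval_cases k' <;>
      simp [d01, d02, d03, d12, d13, d23, d01.symm, d02.symm, d03.symm, d12.symm, d13.symm,
        d23.symm] at hkk ⊢
  · intro k hk i hi hmem
    rw [hm] at hk
    rw [hn] at hi
    interval_cases k <;> interval_cases i <;> simp at hmem
    · exact (a0 _ hmem).1 rfl
    · exact (a0 _ hmem).2 rfl
    · exact (a1 _ hmem).1 rfl
    · exact (a1 _ hmem).2 rfl
    · exact (a2 _ hmem).1 rfl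
    · exact (a2 _ hmem).2 rfl
    · exact (a3 _ hmem).1 rfl
    · exact (a3 _ hmem).2 rfl
  · intro k hk k' hk' hkk hs hd
    rw [hm] at hk hk'
    exfalso
    interval_cases k <;> interval_cases k' <;>
      simp [Pat.src, Pat.dst, patP4] at hkk hs hd

end L2

open L2

theorem l2 : StmtL1 → StmtL2 := by
  classical
  intro hL1 V _ _ E hirr hstr hout Q hQne hQs hQo a l hcyc hcycQ
  have hreach : ∀ x y, Relation.ReflTransGen E x y := by
    intro x y
    have := hstr x (Set.mem_univ _) y (Set.mem_univ _)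
    exact rtg_mono (fun _ _ h => h.2.2) this
  -- the set `U`
  set U : Set V := {u | ∃ X : Set V, (∀ x ∈ X, x ∉ Q) ∧ u ∈ X ∧ ∀ x ∈ X, ∃ y ∈ X, E x y} with hU
  have hUQ : ∀ x ∈ U, x ∉ Q := by
    rintro x ⟨X, h1, h2, -⟩
    exact h1 x h2
  have hUout : ∀ x ∈ U, ∃ y ∈ U, E x y := by
    rintro x ⟨X, h1, h2, h3⟩
    obtain ⟨y, hy, hxy⟩ := h3 x h2
    exact ⟨y, ⟨X, h1, hy, h3⟩, hxy⟩
  have hUin : ∀ x y, x ∉ Q → y ∈ U → E x y → x ∈ U := by
    rintro x y hx ⟨X, h1, h2, h3⟩ hxy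
    refine ⟨insert x X, ?_, by simp, ?_⟩
    · rintro z (rfl | hz)
      · exact hx
      · exact h1 z hz
    · rintro z (rfl | hz)
      · exact ⟨y, by simp [h2], hxy⟩
      · obtain ⟨w, hw, hzw⟩ := h3 z hz
        exact ⟨w, by simp [hw], hzw⟩
  have haU : a ∈ U := by
    refine ⟨{x | x ∈ a :: l}, hcycQ, by simp, ?_⟩
    intro x hx
    exact cyc_out hcyc.1 x hx
  obtain ⟨q0, hq0⟩ := hQne
  have hq0U : q0 ∉ U := fun h => hUQ _ h hq0
  -- the first auxiliary digraph
  set H : V → V → Prop := fun x z => (x ∈ U ∧ z ∈ U ∧ E x z) ∨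
    (x ∈ U ∧ z = q0 ∧ ∃ w, w ∉ U ∧ E x w) ∨ (x = q0 ∧ z ∈ U ∧ ∃ q ∈ Q, E q z) with hH
  have hHto : ∀ x y, Relation.ReflTransGen E x y → x ∈ U → y ∉ U →
      Relation.ReflTransGen H x q0 := by
    intro x y hxy
    induction hxy using Relation.ReflTransGen.head_induction_on with
    | refl => intro h1 h2; exact absurd h1 h2
    | head h1 h2 ih =>
      rename_i x c
      intro hx hy
      by_cases hc : c ∈ U
      · exact Relation.ReflTransGen.head (Or.inl ⟨hx, hc, h1⟩) (ih hc hy)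
      · exact Relation.ReflTransGen.single (Or.inr (Or.inl ⟨hx, rfl, c, hc, h1⟩))
  have hHq0 : ∀ x ∈ U, Relation.ReflTransGen H x q0 := fun x hx =>
    hHto x q0 (hreach x q0) hx hq0U
  have hstart : ∃ q ∈ Q, ∃ z ∈ U, E q z := by
    have key : ∀ x y, Relation.ReflTransGen E x y → x ∉ U → y ∈ U → ∃ q ∈ Q, ∃ z ∈ U, E q z := by
      intro x y hxy
      induction hxy using Relation.ReflTransGen.head_induction_on with
      | refl => intro h1 h2; exact absurd h2 h1
      | head h1 h2 ih =>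
        rename_i x c
        intro hx hy
        by_cases hc : c ∈ U
        · refine ⟨x, ?_, c, hc, h1⟩
          by_contra hxQ
          exact hx (hUin x c hxQ hc h1)
        · exact ih hc hy
    exact key q0 a (hreach q0 a) hq0U haU
  obtain ⟨qs, hqs, zs, hzs, hqzs⟩ := hstart
  set S : Set V := {x | Relation.ReflTransGen H q0 x} with hS
  have hScl : ∀ x ∈ S, ∀ y, H x y → y ∈ S := fun x hx y hxy => Relation.ReflTransGen.tail hx hxy
  have hSU : ∀ x ∈ S, x = q0 ∨ x ∈ U := by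
    intro x hx
    rcases Relation.ReflTransGen.cases_tail hx with h | ⟨c, -, hc⟩
    · exact Or.inl h
    · rcases hc with h | h | h
      · exact Or.inr h.2.1
      · exact Or.inl h.2.1
      · exact Or.inr h.2.1
  have hq0S : q0 ∈ S := Relation.ReflTransGen.refl
  have hReachS : ∀ x y, Relation.ReflTransGen H x y → x ∈ S → ReachIn H S x y := by
    intro x y hxy
    induction hxy using Relation.ReflTransGen.head_induction_on with
    | refl => intro _; exact Relation.ReflTransGen.refl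
    | head h1 h2 ih =>
      rename_i x c
      intro hx
      exact Relation.ReflTransGen.head ⟨hx, hScl x hx c h1, h1⟩ (ih (hScl x hx c h1))
  have hSto : ∀ x ∈ S, Relation.ReflTransGen H x q0 := by
    intro x hx
    rcases hSU x hx with rfl | h
    · exact Relation.ReflTransGen.refl
    · exact hHq0 x h
  have hSstr : StrongOn H S := by
    intro x hx y hy
    exact hReachS x y ((hSto x hx).trans hy) hx
  have hSirr : ∀ x ∈ S, ¬ H x x := by
    rintro x hx (h | h | h)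
    · exact hirr x h.2.2
    · exact hq0U (h.2.1 ▸ h.1)
    · exact hq0U (h.1 ▸ h.2.1)
  have hSout : ∀ x ∈ S, x ≠ q0 → Out2 H S x := by
    intro x hx hxq
    have hxU : x ∈ U := (hSU x hx).resolve_left hxq
    obtain ⟨y0, hy0, hxy0⟩ := hUout x hxU
    obtain ⟨y, -, z, -, hyz, hxy, hxz⟩ := hout x
    obtain ⟨z0, hz0, hxz0⟩ : ∃ z0, z0 ≠ y0 ∧ E x z0 := by
      by_cases h : y = y0
      · exact ⟨z, fun h' => hyz (h.trans h'.symm), hxz⟩
      · exact ⟨y, h, hxy⟩
    have h1 : H x y0 := Or.inl ⟨hxU, hy0, hxy0⟩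
    by_cases hz : z0 ∈ U
    · have h2 : H x z0 := Or.inl ⟨hxU, hz, hxz0⟩
      exact ⟨z0, hScl x hx _ h2, y0, hScl x hx _ h1, hz0, h2, h1⟩
    · have h2 : H x q0 := Or.inr (Or.inl ⟨hxU, rfl, z0, hz, hxz0⟩)
      refine ⟨q0, hScl x hx _ h2, y0, hScl x hx _ h1, ?_, h2, h1⟩
      intro h
      exact hq0U (h ▸ hy0)
  have hSne : ∃ x ∈ S, x ≠ q0 := by
    refine ⟨zs, hScl q0 hq0S zs (Or.inr (Or.inr ⟨rfl, hzs, qs, hqs, hqzs⟩)), ?_⟩
    intro h
    exact hq0U (h ▸ hzs)
  obtain ⟨b, l1, l2, l3, hmem, hs1, hs2, hs3, hnd⟩ := hL1 V H S q0 hSirr hq0S hSne hSstr hSout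
  have hbl : ∀ x ∈ b :: (l1 ++ l2 ++ l3), x ∈ U := by
    intro x hx
    refine (hSU x (hmem x hx)).resolve_left ?_
    rintro rfl
    exact (List.nodup_cons.1 hnd).1 hx
  have hbU : b ∈ U := hbl b (by simp)
  have h1U : ∀ x ∈ l1, x ∈ U := fun x hx => hbl x (by simp [hx])
  have h2U : ∀ x ∈ l2, x ∈ U := fun x hx => hbl x (by simp [hx])
  have h3U : ∀ x ∈ l3, x ∈ U := fun x hx => hbl x (by simp [hx])
  have hHE : ∀ x ∈ U, ∀ y ∈ U, H x y → E x y := by
    rintro x hx y hy (h | h | h)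
    · exact h.2.2
    · exact absurd (h.2.1 ▸ hy) hq0U
    · exact absurd (h.1 ▸ hx) hq0U
  -- loop at b
  have hs3E : Seg E b l3 b := by
    refine chain_mono (U := U) hHE ?_ hs3
    intro x hx
    simp only [List.mem_cons, List.mem_append, List.not_mem_nil, or_false] at hx
    rcases hx with rfl | hx | rfl
    · exact hbU
    · exact h3U x hx
    · exact hbU
  -- from q0 to b
  obtain ⟨hs1a, hs1b⟩ := seg_left.1 hs1
  have hl1b : ∀ x ∈ l1 ++ [b], x ∈ U := by
    intro x hx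
    rcases List.mem_append.1 hx with hx | hx
    · exact h1U x hx
    · rw [List.mem_singleton] at hx; subst hx; exact hbU
  have hs1E : List.IsChain E (l1 ++ [b]) := chain_mono (U := U) hHE hl1b hs1b
  obtain ⟨t', ht'Q, ht'⟩ : ∃ t' ∈ Q, ∀ y ∈ (l1 ++ [b]).head?, E t' y := by
    obtain ⟨y, hy⟩ : ∃ y, (l1 ++ [b]).head? = some y := by
      cases l1 with
      | nil => exact ⟨b, rfl⟩
      | cons c t => exact ⟨c, rfl⟩
    have hyU : y ∈ U := hl1b y (List.mem_of_mem_head? hy)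
    rcases hs1a y hy with h | h | h
    · exact absurd h.1 hq0U
    · exact absurd h.1 hq0U
    · obtain ⟨q, hq, hqy⟩ := h.2.2
      refine ⟨q, hq, ?_⟩
      intro y' hy'
      rw [hy, Option.mem_def, Option.some.injEq] at hy'
      exact hy' ▸ hqy
  -- from b to q0
  obtain ⟨hs2a, hs2b⟩ := seg_right.1 hs2
  have hbl2 : ∀ x ∈ b :: l2, x ∈ U := by
    intro x hx
    rcases List.mem_cons.1 hx with rfl | hx
    · exact hbU
    · exact h2U x hx
  have hs2E : List.IsChain E (b :: l2) := chain_mono (U := U) hHE hbl2 hs2a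
  have hexit : ∀ z q, Relation.ReflTransGen E z q → q ∈ Q → z ∉ U → ∀ w, E w z →
      ∃ r u', Seg E w r u' ∧ u' ∈ Q ∧ ∀ x ∈ r, x ∉ Q ∧ x ∉ U := by
    intro z q hzq hq
    induction hzq using Relation.ReflTransGen.head_induction_on with
    | refl => intro _ w hw; exact ⟨[], q, seg_nil.2 hw, hq, by simp⟩
    | head h1 h2 ih =>
      rename_i z c
      intro hz w hw
      by_cases hzQ : z ∈ Q
      · exact ⟨[], z, seg_nil.2 hw, hzQ, by simp⟩
      · have hc : c ∉ U := fun hc => hz (hUin z c hzQ hc h1)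
        obtain ⟨r, u', hr1, hr2, hr3⟩ := ih hc z h1
        refine ⟨z :: r, u', seg_cons.2 ⟨hw, hr1⟩, hr2, ?_⟩
        intro x hx
        rcases List.mem_cons.1 hx with rfl | hx
        · exact ⟨hzQ, hz⟩
        · exact hr3 x hx
  obtain ⟨r, u', hrseg, hu'Q, hrQU, hrnd⟩ : ∃ r u', Seg E b (l2 ++ r) u' ∧ u' ∈ Q ∧
      (∀ x ∈ r, x ∉ Q ∧ x ∉ U) ∧ r.Nodup := by
    obtain ⟨w, hw⟩ : ∃ w, (b :: l2).getLast? = some w :=
      ⟨_, List.getLast?_eq_some_getLast (by simp)⟩
    have hwU : w ∈ U := hbl2 w (List.mem_of_mem_getLast? hw)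
    obtain ⟨z, hzU, hwz⟩ : ∃ z, z ∉ U ∧ E w z := by
      rcases hs2b w hw with h | h | h
      · exact absurd h.2.1 hq0U
      · exact h.2.2
      · exact absurd (h.1 ▸ hwU) hq0U
    obtain ⟨r0, u', hr1, hr2, hr3⟩ := hexit z q0 (hreach z q0) hq0 hzU w hwz
    obtain ⟨r, hr4, hr5, hr6⟩ := seg_simple r0 w hr1
    obtain ⟨hr7, hr8⟩ := seg_left.1 hr4
    refine ⟨r, u', ?_, hr2, fun x hx => hr3 x (hr6 x hx), hr5⟩
    refine seg_append.2 ⟨hs2E, hr8, ?_⟩
    intro x hx y hy
    rw [hw, Option.mem_def, Option.some.injEq] at hx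
    exact hx ▸ hr7 y hy
  -- second application of L1
  have hbQ : b ∉ Q := hUQ b hbU
  set H2 : V → V → Prop := fun x z => (x ∈ Q ∧ z ∈ Q ∧ E x z) ∨ (x = b ∧ z = u') ∨
    (x = t' ∧ z = b) with hH2
  set S2 : Set V := insert b Q with hS2
  have hbS2 : b ∈ S2 := by simp [hS2]
  have hQS2 : ∀ x ∈ Q, x ∈ S2 := fun x hx => by simp [hS2, hx]
  have hreach2 : ∀ x ∈ Q, ∀ y ∈ Q, ReachIn H2 S2 x y := by
    intro x hx y hy
    refine rtg_mono ?_ (hQs x hx y hy)
    rintro c d ⟨hc, hd, hcd⟩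
    exact ⟨hQS2 c hc, hQS2 d hd, Or.inl ⟨hc, hd, hcd⟩⟩
  have hreach2b : ∀ x ∈ S2, ReachIn H2 S2 x b := by
    intro x hx
    rcases hx with rfl | hx
    · exact Relation.ReflTransGen.refl
    · exact Relation.ReflTransGen.tail (hreach2 x hx t' ht'Q)
        ⟨hQS2 _ ht'Q, hbS2, Or.inr (Or.inr ⟨rfl, rfl⟩)⟩
  have hreachb2 : ∀ x ∈ S2, ReachIn H2 S2 b x := by
    intro x hx
    rcases hx with rfl | hx
    · exact Relation.ReflTransGen.refl
    · exact Relation.ReflTransGen.head ⟨hbS2, hQS2 _ hu'Q, Or.inr (Or.inl ⟨rfl, rfl⟩)⟩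
        (hreach2 u' hu'Q x hx)
  have hstr2 : StrongOn H2 S2 := fun x hx y hy => (hreach2b x hx).trans (hreachb2 y hy)
  have hirr2 : ∀ x ∈ S2, ¬ H2 x x := by
    rintro x hx (h | h | h)
    · exact hirr x h.2.2
    · exact hbQ (h.1.symm.trans h.2 ▸ hu'Q)
    · exact hbQ (h.2.symm.trans h.1 ▸ ht'Q)
  have hout2 : ∀ x ∈ S2, x ≠ b → Out2 H2 S2 x := by
    intro x hx hxb
    have hxQ : x ∈ Q := by
      rcases hx with rfl | hx
      · exact absurd rfl hxb
      · exact hx
    obtain ⟨y, hy, z, hz, hyz, hxy, hxz⟩ := hQo x hxQ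
    exact ⟨y, hQS2 y hy, z, hQS2 z hz, hyz, Or.inl ⟨hxQ, hy, hxy⟩, Or.inl ⟨hxQ, hz, hxz⟩⟩
  have hne2 : ∃ x ∈ S2, x ≠ b := ⟨u', hQS2 _ hu'Q, fun h => hbQ (h ▸ hu'Q)⟩
  obtain ⟨b', l1', l2', l3', hmem', hs1', hs2', hs3', hnd'⟩ :=
    hL1 V H2 S2 b hirr2 hbS2 hne2 hstr2 hout2
  have hbl' : ∀ x ∈ b' :: (l1' ++ l2' ++ l3'), x ∈ Q := by
    intro x hx
    rcases hmem' x hx with h | h
    · subst h
      exact absurd hx (List.nodup_cons.1 hnd').1
    · exact h
  have hb'Q : b' ∈ Q := hbl' b' (by simp)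
  have h1Q : ∀ x ∈ l1', x ∈ Q := fun x hx => hbl' x (by simp [hx])
  have h2Q : ∀ x ∈ l2', x ∈ Q := fun x hx => hbl' x (by simp [hx])
  have h3Q : ∀ x ∈ l3', x ∈ Q := fun x hx => hbl' x (by simp [hx])
  have hHE2 : ∀ x ∈ Q, ∀ y ∈ Q, H2 x y → E x y := by
    rintro x hx y hy (h | h | h)
    · exact h.2.2
    · exact absurd (h.1 ▸ hx) hbQ
    · exact absurd (h.2 ▸ hy) hbQ
  have hs3E' : Seg E b' l3' b' := by
    refine chain_mono (U := Q) hHE2 ?_ hs3'
    intro x hx
    simp only [List.mem_cons, List.mem_append, List.not_mem_nil, or_false] at hx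
    rcases hx with rfl | hx | rfl
    · exact hb'Q
    · exact h3Q x hx
    · exact hb'Q
  obtain ⟨hs1a', hs1b'⟩ := seg_left.1 hs1'
  have hl1b' : ∀ x ∈ l1' ++ [b'], x ∈ Q := by
    intro x hx
    rcases List.mem_append.1 hx with hx | hx
    · exact h1Q x hx
    · rw [List.mem_singleton] at hx; subst hx; exact hb'Q
  have hs1E' : List.IsChain E (l1' ++ [b']) := chain_mono (U := Q) hHE2 hl1b' hs1b'
  have hhead' : ∀ y ∈ (l1' ++ [b']).head?, y = u' := by
    intro y hy
    rcases hs1a' y hy with h | h | h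
    · exact absurd h.1 hbQ
    · exact h.2
    · exact absurd (h.1 ▸ ht'Q) hbQ
  obtain ⟨hs2a', hs2b'⟩ := seg_right.1 hs2'
  have hbl2' : ∀ x ∈ b' :: l2', x ∈ Q := by
    intro x hx
    rcases List.mem_cons.1 hx with rfl | hx
    · exact hb'Q
    · exact h2Q x hx
  have hs2E' : List.IsChain E (b' :: l2') := chain_mono (U := Q) hHE2 hbl2' hs2a'
  have hlast' : ∀ x ∈ (b' :: l2').getLast?, x = t' := by
    intro x hx
    rcases hs2b' x hx with h | h | h
    · exact absurd h.2.1 hbQ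
    · exact absurd (h.2 ▸ hu'Q) hbQ
    · exact h.1
  -- the two connecting paths
  have hA1 : Seg E b' (l2' ++ l1) b := by
    refine seg_append.2 ⟨hs2E', hs1E, ?_⟩
    intro x hx y hy
    rw [hlast' x hx]
    exact ht' y hy
  obtain ⟨hr1, hr2⟩ := seg_right.1 hrseg
  have hA2 : Seg E b ((l2 ++ r) ++ l1') b' := by
    refine seg_append.2 ⟨hr1, hs1E', ?_⟩
    intro x hx y hy
    rw [hhead' y hy]
    exact hr2 x hx
  -- disjointness
  have hdUQ : ∀ x, x ∈ U → x ∈ Q → False := fun x h1 h2 => hUQ x h1 h2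
  simp only [List.nodup_cons, List.nodup_append, List.mem_cons, List.mem_append, not_or] at hnd hnd'
  obtain ⟨hq1, ⟨hb1, ⟨⟨hn1, hn2, hd12⟩, hn3, hd123⟩⟩⟩ := hnd
  obtain ⟨hq1', ⟨hb1', ⟨⟨hn1', hn2', hd12'⟩, hn3', hd123'⟩⟩⟩ := hnd'
  have hbb : b' ≠ b := fun h => hbQ (h ▸ hb'Q)
  refine mkEmb hbb hs3E' hA1 hA2 hs3E hn3' ?_ ?_ hn3 ?_ ?_ ?_ ?_ ?_ ?_ ?_ ?_ ?_ ?_
  · -- p1 nodup
    refine List.nodup_append.2 ⟨hn2', hn1, ?_⟩
    rintro x hx y hy rfl
    exact hdUQ x (h1U x hy) (h2Q x hx)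
  · refine List.nodup_append.2 ⟨List.nodup_append.2 ⟨hn2, hrnd, ?_⟩, hn1', ?_⟩
    · rintro x hx y hy rfl
      exact (hrQU x hy).2 (h2U x hx)
    · rintro x hx y hy rfl
      rcases List.mem_append.1 hx with hx | hx
      · exact hdUQ x (h2U x hx) (h1Q x hy)
      · exact (hrQU x hx).1 (h1Q x hy)
  · -- l3' with l2' ++ l1
    intro x hx hy
    rcases List.mem_append.1 hy with hy | hy
    · exact hd123' x (Or.inr hy) x hx rfl
    · exact hdUQ x (h1U x hy) (h3Q x hx)
  · intro x hx hy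
    rcases List.mem_append.1 hy with hy | hy
    · rcases List.mem_append.1 hy with hy | hy
      · exact hdUQ x (h2U x hy) (h3Q x hx)
      · exact (hrQU x hy).1 (h3Q x hx)
    · exact hd123' x (Or.inl hy) x hx rfl
  · intro x hx hy
    exact hdUQ x (h3U x hy) (h3Q x hx)
  · intro x hx hy
    rcases List.mem_append.1 hx with hx | hx
    · rcases List.mem_append.1 hy with hy | hy
      · rcases List.mem_append.1 hy with hy | hy
        · exact hdUQ x (h2U x hy) (h2Q x hx)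
        · exact (hrQU x hy).1 (h2Q x hx)
      · exact hd12' x hy x hx rfl
    · rcases List.mem_append.1 hy with hy | hy
      · rcases List.mem_append.1 hy with hy | hy
        · exact hd12 x hx x hy rfl
        · exact (hrQU x hy).2 (h1U x hx)
      · exact hdUQ x (h1U x hx) (h1Q x hy)
  · intro x hx hy
    rcases List.mem_append.1 hx with hx | hx
    · exact hdUQ x (h3U x hy) (h2Q x hx)
    · exact hd123 x (Or.inl hx) x hy rfl
  · intro x hx hy
    rcases List.mem_append.1 hx with hx | hx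
    · rcases List.mem_append.1 hx with hx | hx
      · exact hd123 x (Or.inr hx) x hy rfl
      · exact (hrQU x hx).2 (h3U x hy)
    · exact hdUQ x (h3U x hy) (h1Q x hx)
  · intro x hx
    refine ⟨?_, ?_⟩
    · rintro rfl; exact hb1'.2 hx
    · rintro rfl; exact hbQ (h3Q _ hx)
  · intro x hx
    rcases List.mem_append.1 hx with hx | hx
    · refine ⟨?_, ?_⟩
      · rintro rfl; exact hb1'.1.2 hx
      · rintro rfl; exact hbQ (h2Q _ hx)
    · refine ⟨?_, ?_⟩
      · rintro rfl; exact hdUQ _ (h1U _ hx) hb'Q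
      · rintro rfl; exact hb1.1.1 hx
  · intro x hx
    rcases List.mem_append.1 hx with hx | hx
    · rcases List.mem_append.1 hx with hx | hx
      · refine ⟨?_, ?_⟩
        · rintro rfl; exact hdUQ _ (h2U _ hx) hb'Q
        · rintro rfl; exact hb1.1.2 hx
      · refine ⟨?_, ?_⟩
        · rintro rfl; exact (hrQU _ hx).1 hb'Q
        · rintro rfl; exact (hrQU _ hx).2 hbU
    · refine ⟨?_, ?_⟩
      · rintro rfl; exact hb1'.1.1 hx
      · rintro rfl; exact hbQ (h1Q _ hx)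
  · intro x hx
    refine ⟨?_, ?_⟩
    · rintro rfl; exact hdUQ _ (h3U _ hx) hb'Q
    · rintro rfl; exact hb1.2 hx

end BiP4
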