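import Pool.Agent.Work.MP_d76268_co.Bd.B06
import Pool.Agent.Work.MP_d76268_co.Menger
import Pool.Agent.Work.MP_d76268_co.Bd.B05
import Pool.Agent.Work.MP_d76268_co.L2
import Pool.Agent.Work.MP_d76268_co.Bd.B03
import Pool.Agent.Work.MP_d76268_co.DigSrc
import Pool.Agent.Work.MP_d76268_co.Bd.B01
import Pool.Agent.Work.MP_d76268_co.Exit

/-!
# MP_d76268_co: from strong digraphs to all digraphs
-/

namespace BiP4

universe u v

theorem strongThm : StmtStrong :=
  strong (sound (restrict walk) (step walk (fan menger))) (restrict walk) exit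
    (noSep (l2 (l1 (twoPath menger) terminal)) terminal)
    (three contract digon source bound colour)

/-- image of an embedding under an injective homomorphism -/
theorem Emb.map {V : Type u} {W : Type v} {E : V → V → Prop} {E' : W → W → Prop} {P : Pat}
    (φ : Emb E P) (f : V → W) (hf : Function.Injective f)
    (hE : ∀ x y, E x y → E' (f x) (f y)) : Nonempty (Emb E' P) := by
  have hseg : ∀ (l : List V) (a b : V), Seg E a l b → Seg E' (f a) (l.map f) (f b) := by
    intro l
    induction l with
    | nil => intro a b h; simpa using hE a b (by simpa using h)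
    | cons x l ih =>
      intro a b h
      rw [seg_cons] at h
      rw [List.map_cons, seg_cons]
      exact ⟨hE _ _ h.1, ih _ _ h.2⟩
  refine ⟨⟨fun i => f (φ.β i), fun k => (φ.π k).map f, ?_, ?_, ?_, ?_, ?_, ?_⟩⟩
  · intro i hi j hj h
    exact φ.inj i hi j hj (hf h)
  · intro k hk
    exact hseg _ _ _ (φ.seg k hk)
  · intro k hk
    exact (φ.nodup k hk).map hf
  · intro k hk k' hk' hne x hx hx'
    obtain ⟨y, hy, rfl⟩ := List.mem_map.1 hx
    obtain ⟨y', hy', he⟩ := List.mem_map.1 hx'
    rw [hf he] at hy'
    exact φ.disj k hk k' hk' hne hy hy'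
  · intro k hk i hi hx
    obtain ⟨y, hy, he⟩ := List.mem_map.1 hx
    rw [hf he] at hy
    exact φ.avoid k hk i hi hy
  · intro k hk k' hk' hne h1 h2
    rcases φ.npar k hk k' hk' hne h1 h2 with h | h
    · left; simpa using h
    · right; simpa using h

/-- reachability in the subtype -/
theorem reach_subtype {V : Type} {E : V → V → Prop} (Q : Set V) {a b : V}
    (h : ReachIn E Q a b) (ha : a ∈ Q) (hb : b ∈ Q) :
    ReachIn (fun x y : Q => E x y) Set.univ ⟨a, ha⟩ ⟨b, hb⟩ := by
  induction h with
  | refl => exact Relation.ReflTransGen.refl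
  | @tail c d _ hcd ih =>
    exact (ih hcd.1).tail ⟨Set.mem_univ _, Set.mem_univ _, hcd.2.2⟩

theorem allDigraphs0 (V : Type) [Fintype V] [DecidableEq V] (E : V → V → Prop)
    (hne : Nonempty V) (hE : ∀ x, ¬ E x x) (hout : ∀ v, OutGe E 32 v) :
    Nonempty (Emb E patP4) := by
  classical
  obtain ⟨Q, -, hQne, hQst, hQcl⟩ := terminal V E Set.univ ⟨hne.some, Set.mem_univ _⟩
  obtain ⟨q, hq⟩ := hQne
  obtain ⟨φ⟩ := strongThm Q (fun x y : Q => E x y) ⟨⟨q, hq⟩⟩ (fun x => hE x)
    (fun a _ b _ => reach_subtype Q (hQst a a.2 b b.2) a.2 b.2) (by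
      intro v
      obtain ⟨F, hF, hFE⟩ := hout v
      have hFQ : ∀ x ∈ F, x ∈ Q := fun x hx => hQcl v v.2 x (Set.mem_univ _) (hFE x hx)
      refine ⟨F.subtype (fun x => x ∈ Q), ?_, ?_⟩
      · rw [Finset.card_subtype, Finset.filter_true_of_mem hFQ]
        exact hF
      · intro x hx
        exact hFE x (by simpa using hx))
  exact φ.map (fun x : Q => (x : V)) Subtype.val_injective (fun x y h => h)

theorem allDigraphs (V : Type u) [Finite V] [Nonempty V] (E : V → V → Prop)
    (hE : ∀ x, ¬ E x x) (hout : ∀ v, 32 ≤ {w | E v w}.ncard) :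
    Nonempty (Emb E patP4) := by
  classical
  have := Fintype.ofFinite V
  let e : V ≃ Fin (Fintype.card V) := Fintype.equivFin V
  have hne : Nonempty (Fin (Fintype.card V)) := ⟨e (Classical.arbitrary V)⟩
  obtain ⟨φ⟩ := allDigraphs0 (Fin (Fintype.card V)) (fun i j => E (e.symm i) (e.symm j)) hne
    (fun i => hE _) (by
      intro i
      refine ⟨Finset.univ.filter (fun j => E (e.symm i) (e.symm j)), ?_, ?_⟩
      · have h1 := hout (e.symm i)
        have h2 : ({w | E (e.symm i) w}).ncard =
            (Finset.univ.filter (fun j => E (e.symm i) (e.symm j))).card := by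
          rw [Set.ncard_eq_toFinset_card']
          refine Finset.card_bij (fun w _ => e w) ?_ ?_ ?_
          · intro w hw
            simpa using hw
          · intro w _ w' _ h
            exact e.injective h
          · intro j hj
            exact ⟨e.symm j, by simpa using hj, by simp⟩
        rw [← h2]; exact h1
      · intro j hj
        simpa using hj)
  exact φ.map e.symm e.symm.injective (fun x y h => h)

end BiP4
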